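import Pool.Agent.Helper99.LR.Abs

/-!
# A multi-scale concavity argument with the logarithm as potential

With `gm p r n = (p (n + r) - p n) / r` and the potential `log (1 + t / K)`: if the `b` means
`gm p r (n + j r)`, `j < b`, are not all equal up to the factors `1 ± ε`, then Jensen's inequality
has a defect of at least `ε² / (20 b)`.
-/

set_option autoImplicit false

open Finset

namespace Pool.Agent.Helper99.LR2

open Pool.Agent.Helper99.LR (gm gm_nonneg gm_mul large_card')

/-- The potential. -/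
noncomputable def lph (K t : ℝ) : ℝ := Real.log (1 + t / K)

theorem lph_nonneg {K t : ℝ} (hK : 0 < K) (ht : 0 ≤ t) : 0 ≤ lph K t := by
  unfold lph
  apply Real.log_nonneg
  have : 0 ≤ t / K := by positivity
  linarith

theorem lph_eq {K t : ℝ} (hK : 0 < K) (ht : 0 ≤ t) : lph K t = Real.log (K + t) - Real.log K := by
  unfold lph
  rw [← Real.log_div (by positivity) hK.ne']
  congr 1
  field_simp

/-- The tangent inequality. -/
theorem lph_le {K t a : ℝ} (hK : 0 < K) (ht : 0 ≤ t) (ha : 0 ≤ a) :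
    lph K t ≤ lph K a + (t - a) / (K + a) := by
  rw [lph_eq hK ht, lph_eq hK ha]
  have h1 : Real.log (K + t) - Real.log (K + a) = Real.log ((K + t) / (K + a)) := by
    rw [Real.log_div (by positivity) (by positivity)]
  have h2 := Real.log_le_sub_one_of_pos (show 0 < (K + t) / (K + a) by positivity)
  have h3 : (K + t) / (K + a) - 1 = (t - a) / (K + a) := by
    field_simp
    ring
  linarith

theorem psi_ge {y η : ℝ} (hy : 0 < y) (hη : 0 ≤ η) (hη2 : η ≤ 1 / 2) (h : η ≤ |y - 1|) :
    η ^ 2 / 5 ≤ y - 1 - Real.log y := by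
  set s : ℝ := Real.sqrt y with hs
  have hs0 : 0 < s := Real.sqrt_pos.mpr hy
  have hsy : y = s ^ 2 := (Real.sq_sqrt hy.le).symm
  have h1 : Real.log y ≤ 2 * (s - 1) := by
    rw [hsy, Real.log_pow]
    have := Real.log_le_sub_one_of_pos hs0
    push_cast
    linarith
  have h2 : y - 1 - 2 * (s - 1) = (s - 1) ^ 2 := by rw [hsy]; ring
  have h3 : η ^ 2 / 5 ≤ (s - 1) ^ 2 := by
    by_contra hc
    push Not at hc
    set d : ℝ := |s - 1| with hd
    have hd0 : 0 ≤ d := abs_nonneg _
    have hd2 : d ^ 2 = (s - 1) ^ 2 := sq_abs _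
    have h4 : d < 9 / 20 * η := by
      by_contra hcc
      push Not at hcc
      have : (9 / 20 * η) ^ 2 ≤ d ^ 2 := pow_le_pow_left₀ (by positivity) hcc 2
      nlinarith
    have h5 : |y - 1| = d * (s + 1) := by
      have : y - 1 = (s - 1) * (s + 1) := by rw [hsy]; ring
      rw [this, abs_mul, abs_of_pos (show (0 : ℝ) < s + 1 by linarith)]
    have h6 : s - 1 ≤ d := le_abs_self _
    have h7 : d * (s + 1) ≤ d * (2 + d) := mul_le_mul_of_nonneg_left (by linarith) hd0
    nlinarith
  linarith

/-- The defect at scale `r` (factor `b`) at the place `n`. -/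
noncomputable def Dl (p : ℕ → ℝ) (K : ℝ) (b r n : ℕ) : ℝ :=
  lph K (gm p (b * r) n) - (∑ j ∈ range b, lph K (gm p r (n + j * r))) / b

theorem Dl_eq {p : ℕ → ℝ} (hp : Monotone p) {K : ℝ} (hK : 0 < K) {b r : ℕ} (hb : 0 < b)
    (hr : 0 < r) (n : ℕ) : Dl p K b r n =
      (∑ j ∈ range b, ((K + gm p r (n + j * r)) / (K + gm p (b * r) n) - 1 -
        Real.log ((K + gm p r (n + j * r)) / (K + gm p (b * r) n)))) / b := by
  have hb0 : (b : ℝ) ≠ 0 := by exact_mod_cast hb.ne'
  set m : ℝ := gm p (b * r) n with hm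
  have hm0 : 0 ≤ m := gm_nonneg hp _ _
  have hmK : K + m ≠ 0 := by positivity
  have h0 : ∑ j ∈ range b, (gm p r (n + j * r) - m) = 0 := by
    rw [Finset.sum_sub_distrib, Finset.sum_const, Finset.card_range, nsmul_eq_mul, hm,
      gm_mul p hb hr n]
    field_simp
    ring
  have h1 : ∀ j ∈ range b, (K + gm p r (n + j * r)) / (K + m) - 1 -
      Real.log ((K + gm p r (n + j * r)) / (K + m)) =
      (gm p r (n + j * r) - m) * (K + m)⁻¹ + (lph K m - lph K (gm p r (n + j * r))) := by
    intro j _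
    have h2 := gm_nonneg hp r (n + j * r)
    rw [lph_eq hK hm0, lph_eq hK h2, Real.log_div (by positivity) hmK]
    field_simp
    ring
  rw [Finset.sum_congr rfl h1, Finset.sum_add_distrib, ← Finset.sum_mul, h0, zero_mul, zero_add,
    Finset.sum_sub_distrib, Finset.sum_const, Finset.card_range, nsmul_eq_mul, sub_div,
    mul_div_assoc, mul_div_cancel₀ _ hb0]
  rfl

theorem term_nonneg {x : ℝ} (hx : 0 < x) : 0 ≤ x - 1 - Real.log x := by
  have := Real.log_le_sub_one_of_pos hx
  linarith

theorem Dl_nonneg {p : ℕ → ℝ} (hp : Monotone p) {K : ℝ} (hK : 0 < K) {b r : ℕ} (hb : 0 < b)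
    (hr : 0 < r) (n : ℕ) : 0 ≤ Dl p K b r n := by
  rw [Dl_eq hp hK hb hr]
  apply div_nonneg _ (Nat.cast_nonneg _)
  apply Finset.sum_nonneg
  intro j _
  have h1 := gm_nonneg hp r (n + j * r)
  have h2 := gm_nonneg hp (b * r) n
  exact term_nonneg (by positivity)

/-- Places at which the `b` means are not `ε`-close have a large defect. -/
theorem Dl_large {p : ℕ → ℝ} (hp : Monotone p) {K ε : ℝ} (hK : 0 < K) (hε : 0 ≤ ε) (hε1 : ε ≤ 1)
    {b r : ℕ} (hb : 0 < b) (hr : 0 < r) (n : ℕ) (h1 : K ≤ gm p (b * r) n)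
    {j : ℕ} (hj : j < b) (h3 : ε * gm p (b * r) n < |gm p r (n + j * r) - gm p (b * r) n|) :
    ε ^ 2 / (20 * b) ≤ Dl p K b r n := by
  have hb0 : (0 : ℝ) < b := by exact_mod_cast hb
  set m : ℝ := gm p (b * r) n with hm
  have hm0 : 0 < m := by linarith
  have hg := gm_nonneg hp r (n + j * r)
  rw [Dl_eq hp hK hb hr, ← hm]
  have h4 : (ε / 2) ^ 2 / 5 ≤ (K + gm p r (n + j * r)) / (K + m) - 1 -
      Real.log ((K + gm p r (n + j * r)) / (K + m)) := by
    apply psi_ge (by positivity) (by linarith) (by linarith)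
    have h5 : (K + gm p r (n + j * r)) / (K + m) - 1 = (gm p r (n + j * r) - m) / (K + m) := by
      field_simp
      ring
    rw [h5, abs_div, abs_of_pos (show (0 : ℝ) < K + m by positivity), le_div_iff₀ (by positivity)]
    have h6 : ε / 2 * (K + m) ≤ ε * m := by nlinarith
    linarith
  have h7 : (K + gm p r (n + j * r)) / (K + m) - 1 -
      Real.log ((K + gm p r (n + j * r)) / (K + m)) ≤
      ∑ i ∈ range b, ((K + gm p r (n + i * r)) / (K + m) - 1 -
        Real.log ((K + gm p r (n + i * r)) / (K + m))) := by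
    apply Finset.single_le_sum (f := fun i => (K + gm p r (n + i * r)) / (K + m) - 1 -
        Real.log ((K + gm p r (n + i * r)) / (K + m))) _ (Finset.mem_range.mpr hj)
    intro i _
    have := gm_nonneg hp r (n + i * r)
    exact term_nonneg (by positivity)
  have h8 : ε ^ 2 / (20 * b) = (ε / 2) ^ 2 / 5 / b := by
    field_simp
    ring
  rw [h8]
  exact div_le_div_of_nonneg_right (h4.trans h7) hb0.le

/-- The total of the means over an initial segment. -/
theorem sum_gm_le {p : ℕ → ℝ} (hp : Monotone p) {r : ℕ} (hr : 0 < r) (N : ℕ) :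
    ∑ n ∈ range N, gm p r n ≤ p (N + r) - p 0 := by
  have hr0 : (0 : ℝ) < r := by exact_mod_cast hr
  have h2 : ∑ n ∈ range N, gm p r n = (∑ j ∈ range r, (p (N + j) - p j)) / r := by
    unfold gm
    rw [← Finset.sum_div]
    congr 1
    have h3 : ∀ n ∈ range N, p (n + r) - p n = ∑ j ∈ range r, (p (n + 1 + j) - p (n + j)) := by
      intro n _
      have h4 := Finset.sum_range_sub (fun j => p (n + j)) r
      simp only [add_zero] at h4
      rw [← h4]
      apply Finset.sum_congr rfl
      intro j _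
      congr 2
      ring
    rw [Finset.sum_congr rfl h3, Finset.sum_comm]
    apply Finset.sum_congr rfl
    intro j _
    have h4 := Finset.sum_range_sub (fun n => p (n + j)) N
    simp only [zero_add] at h4
    rw [← h4]
  have h3 : ∑ j ∈ range r, (p (N + j) - p j) ≤ r * (p (N + r) - p 0) := by
    calc _ ≤ ∑ j ∈ range r, (p (N + r) - p 0) := by
          apply Finset.sum_le_sum
          intro j hj
          rw [Finset.mem_range] at hj
          have h4 := hp (show N + j ≤ N + r by omega)
          have h5 := hp (Nat.zero_le j)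
          linarith
      _ = _ := by rw [Finset.sum_const, Finset.card_range, nsmul_eq_mul]
  rw [h2, div_le_iff₀ hr0]
  linarith

/-- The total potential over an initial segment, by Jensen's inequality. -/
theorem sum_lph_le {p : ℕ → ℝ} (hp : Monotone p) {K : ℝ} (hK : 0 < K) {r : ℕ} (hr : 0 < r) (N : ℕ)
    {a : ℝ} (ha : 0 ≤ a) (hlen : p (N + r) - p 0 ≤ N * a) :
    ∑ n ∈ range N, lph K (gm p r n) ≤ N * lph K a := by
  have h1 : ∀ n ∈ range N, lph K (gm p r n) ≤ lph K a + (gm p r n - a) / (K + a) :=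
    fun n _ => lph_le hK (gm_nonneg hp r n) ha
  have h2 := Finset.sum_le_sum h1
  rw [Finset.sum_add_distrib, ← Finset.sum_div, Finset.sum_sub_distrib, Finset.sum_const,
    Finset.sum_const, Finset.card_range, nsmul_eq_mul, nsmul_eq_mul] at h2
  have h3 := sum_gm_le hp hr N
  have h4 : (∑ n ∈ range N, gm p r n - N * a) / (K + a) ≤ 0 := by
    apply div_nonpos_of_nonpos_of_nonneg (by linarith) (by positivity)
  linarith

theorem shift_sum' (f : ℕ → ℝ) (hf0 : ∀ n, 0 ≤ f n) (N s : ℕ) :
    ∑ n ∈ range N, f n - ∑ n ∈ range s, f n ≤ ∑ n ∈ range N, f (n + s) := by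
  have h1 : ∑ n ∈ range (N + s), f n = ∑ n ∈ range s, f n + ∑ n ∈ range N, f (n + s) := by
    rw [add_comm N s, Finset.sum_range_add]
    congr 1
    apply Finset.sum_congr rfl
    intro n _
    rw [add_comm]
  have h2 : ∑ n ∈ range N, f n ≤ ∑ n ∈ range (N + s), f n := by
    apply Finset.sum_le_sum_of_subset_of_nonneg
    · apply Finset.range_subset_range.mpr; omega
    · intro n _ _; exact hf0 n
  linarith

/-- The total defect at one scale, with the boundary term. -/
theorem sum_Dl_le {p : ℕ → ℝ} (hp : Monotone p) {K : ℝ} (hK : 0 < K) {b r : ℕ} (hb : 0 < b)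
    (N : ℕ) : ∑ n ∈ range N, Dl p K b r n ≤
      ∑ n ∈ range N, lph K (gm p (b * r) n) - ∑ n ∈ range N, lph K (gm p r n) +
        ∑ n ∈ range (b * r), lph K (gm p r n) := by
  have hb0 : (0 : ℝ) < b := by exact_mod_cast hb
  unfold Dl
  rw [Finset.sum_sub_distrib, ← Finset.sum_div, Finset.sum_comm]
  have h1 : ∀ j ∈ range b, ∑ n ∈ range N, lph K (gm p r n) -
      ∑ n ∈ range (b * r), lph K (gm p r n) ≤
      ∑ n ∈ range N, lph K (gm p r (n + j * r)) := by
    intro j hj
    have h2 := shift_sum' (fun n => lph K (gm p r n)) (fun n => lph_nonneg hK (gm_nonneg hp _ _))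
      N (j * r)
    have h3 : ∑ n ∈ range (j * r), lph K (gm p r n) ≤ ∑ n ∈ range (b * r), lph K (gm p r n) := by
      apply Finset.sum_le_sum_of_subset_of_nonneg
      · apply Finset.range_subset_range.mpr
        rw [Finset.mem_range] at hj
        exact Nat.mul_le_mul_right _ hj.le
      · intro n _ _
        exact lph_nonneg hK (gm_nonneg hp _ _)
    linarith
  have h4 := Finset.sum_le_sum h1
  rw [Finset.sum_const, Finset.card_range, nsmul_eq_mul] at h4
  have h5 : ∑ n ∈ range N, lph K (gm p r n) - ∑ n ∈ range (b * r), lph K (gm p r n) ≤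
      (∑ j ∈ range b, ∑ n ∈ range N, lph K (gm p r (n + j * r))) / b := by
    rw [le_div_iff₀ hb0]
    linarith
  linarith

/-- The potentials at two neighbouring scales. -/
theorem lph_near {p : ℕ → ℝ} (hp : Monotone p) {K : ℝ} (hK : 0 < K) {m j : ℕ} (hm : 0 < m)
    (n : ℕ) : lph K (gm p m n) ≤ lph K (gm p (m + j) n) + (j : ℝ) / m := by
  have hm0 : (0 : ℝ) < m := by exact_mod_cast hm
  have h1 := gm_nonneg hp m n
  have h2 := gm_nonneg hp (m + j) n
  have h3 : gm p m n * m ≤ gm p (m + j) n * ((m + j : ℕ) : ℝ) := by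
    unfold gm
    rw [div_mul_cancel₀ _ hm0.ne', div_mul_cancel₀ _ (by positivity)]
    have := hp (show n + m ≤ n + (m + j) by omega)
    linarith
  rw [lph_eq hK h1, lph_eq hK h2]
  have h4 : K + gm p m n ≤ (K + gm p (m + j) n) * (1 + (j : ℝ) / m) := by
    have h5 : gm p m n ≤ gm p (m + j) n * (1 + (j : ℝ) / m) := by
      have h6 : gm p (m + j) n * (1 + (j : ℝ) / m) = gm p (m + j) n * ((m + j : ℕ) : ℝ) / m := by
        push_cast
        field_simp
      rw [h6, le_div_iff₀ hm0]
      exact h3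
    have h7 : 0 ≤ K * ((j : ℝ) / m) := by positivity
    nlinarith
  have h8 : Real.log (K + gm p m n) ≤
      Real.log (K + gm p (m + j) n) + Real.log (1 + (j : ℝ) / m) := by
    rw [← Real.log_mul (by positivity) (by positivity)]
    exact Real.log_le_log (by positivity) h4
  have h9 : Real.log (1 + (j : ℝ) / m) ≤ (j : ℝ) / m := by
    have := Real.log_le_sub_one_of_pos (show 0 < 1 + (j : ℝ) / m by positivity)
    linarith
  linarith

end Pool.Agent.Helper99.LR2
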