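import Pool.Agent.Helper99.LR2.Main

/-!
# The bad steps have bounded logarithmic size
-/

set_option autoImplicit false

open Finset

namespace Pool.Agent.Helper99.LR2

open Pool.Agent.Helper99.LR (pr small_card)

open scoped Classical in
theorem almost_all_steps : ∃ C : ℝ, 0 < C ∧ ∀ k : ℕ, 1 ≤ k → ∀ ε δ : ℝ, 0 < ε → ε ≤ 1 →
    0 < δ → δ ≤ 1 → ∀ N : ℕ,
    ∑ r ∈ (Icc 1 N).filter (fun r => δ * N < (((range N).filter (badP k ε r)).card : ℝ)),
      1 / (r : ℝ) ≤ C * (k * Real.log (k + 1) * Real.log (2 / δ)) / (ε ^ 2 * δ) := by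
  classical
  obtain ⟨C, hC, hsm⟩ := small_card
  have hlC : 0 ≤ Real.log (1 + 240000 * C) := by
    apply Real.log_nonneg
    have : 0 ≤ 240000 * C := by positivity
    linarith
  obtain ⟨c2, hc2⟩ : ∃ c2 : ℝ, c2 = 2 * Real.log (1 + 240000 * C) + 1 := ⟨_, rfl⟩
  have hc21 : 1 ≤ c2 := by linarith
  refine ⟨280 * c2 + 208, by linarith, ?_⟩
  intro k hk ε δ hε hε1 hδ hδ1 N
  have hk1 : (1 : ℝ) ≤ k := by exact_mod_cast hk
  have hk0 : (0 : ℝ) < k := by linarith
  have hl2 := Real.log_two_gt_d9
  have hlk : 0.69 ≤ Real.log (k + 1) := by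
    have : Real.log 2 ≤ Real.log (k + 1) := Real.log_le_log (by norm_num) (by linarith)
    linarith
  have hlδ : 0.69 ≤ Real.log (2 / δ) := by
    have : Real.log 2 ≤ Real.log (2 / δ) := by
      apply Real.log_le_log (by norm_num)
      rw [le_div_iff₀ hδ]
      linarith
    linarith
  obtain ⟨a, ha⟩ : ∃ a : ℝ, a = Real.log (k + 1) := ⟨_, rfl⟩
  obtain ⟨d, hd⟩ : ∃ d : ℝ, d = Real.log (2 / δ) := ⟨_, rfl⟩
  rw [← ha] at hlk ⊢
  rw [← hd] at hlδ ⊢
  have had : 0.47 ≤ a * d := by nlinarith
  obtain ⟨P, hP⟩ : ∃ P : ℝ, P = k / (δ * ε ^ 2) := ⟨_, rfl⟩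
  have hP1 : 1 ≤ P := by
    rw [hP, le_div_iff₀ (by positivity), one_mul]
    have h1 : ε ^ 2 ≤ 1 := pow_le_one₀ hε.le hε1
    have h2 : 0 < ε ^ 2 := by positivity
    nlinarith
  have hgoal : (280 * c2 + 208) * (k * a * d) / (ε ^ 2 * δ) =
      (280 * c2 + 208) * (P * (a * d)) := by
    rw [hP]
    field_simp
  rw [hgoal]
  have hPad : 0.47 ≤ P * (a * d) := by nlinarith
  rcases Nat.lt_or_ge N 81 with hN | hN
  · -- small N
    have h1 : ∑ r ∈ (Icc 1 N).filter (fun r => δ * N < (((range N).filter (badP k ε r)).card : ℝ)),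
        1 / (r : ℝ) ≤ 80 := by
      calc _ ≤ ∑ r ∈ Icc 1 N, 1 / (r : ℝ) := by
            apply Finset.sum_le_sum_of_subset_of_nonneg (Finset.filter_subset _ _)
            intro i _ _
            positivity
        _ ≤ ∑ r ∈ Icc 1 N, (1 : ℝ) := by
            apply Finset.sum_le_sum
            intro r hr
            rw [Finset.mem_Icc] at hr
            have : (1 : ℝ) ≤ r := by exact_mod_cast hr.1
            rw [div_le_one (by linarith)]
            exact this
        _ = N := by simp
        _ ≤ 80 := by exact_mod_cast (by omega : N ≤ 80)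
    refine h1.trans ?_
    nlinarith
  · have h1 := bad_steps hC hsm hk hε hε1 hδ hN
    have hΛ : Real.log (1 + 120000 / (δ / (2 * C))) ≤ c2 * d := by
      have h2 : 1 + 120000 / (δ / (2 * C)) ≤ (1 + 240000 * C) * (1 / δ) := by
        have h3 : 1 + 120000 / (δ / (2 * C)) = 1 + 240000 * C * (1 / δ) := by
          field_simp
          ring
        have h4 : 1 ≤ 1 / δ := by
          rw [le_div_iff₀ hδ]
          linarith
        rw [h3]
        linarith
      have h3 : Real.log (1 + 120000 / (δ / (2 * C))) ≤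
          Real.log (1 + 240000 * C) + Real.log (1 / δ) := by
        rw [← Real.log_mul (by positivity) (by positivity)]
        exact Real.log_le_log (by positivity) h2
      have h4 : Real.log (1 / δ) ≤ d := by
        rw [hd]
        apply Real.log_le_log (by positivity)
        exact div_le_div_of_nonneg_right (by norm_num) hδ.le
      have h5 : Real.log (1 + 240000 * C) ≤ 2 * Real.log (1 + 240000 * C) * d := by nlinarith
      rw [hc2]
      linarith
    have hΛ0 : 0 ≤ Real.log (1 + 120000 / (δ / (2 * C))) := by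
      apply Real.log_nonneg
      have : 0 ≤ 120000 / (δ / (2 * C)) := by positivity
      linarith
    have hlogk : Real.log k ≤ a := by
      rw [ha]
      exact Real.log_le_log hk0 (by linarith)
    have h2 : 4 + Real.log k ≤ 7 * a := by linarith
    have h3 : Real.log (1 + 120000 / (δ / (2 * C))) * (4 + Real.log k) + 2 ≤
        (7 * c2 + 5) * (a * d) := by
      have h4 : Real.log (1 + 120000 / (δ / (2 * C))) * (4 + Real.log k) ≤
          (c2 * d) * (7 * a) := by
        apply mul_le_mul hΛ h2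
        · have := Real.log_nonneg hk1
          linarith
        · positivity
      nlinarith
    have h4 : 40 * k / (δ * ε ^ 2) *
        (Real.log (1 + 120000 / (δ / (2 * C))) * (4 + Real.log k) + 2) ≤
        40 * P * ((7 * c2 + 5) * (a * d)) := by
      have h5 : 40 * (k : ℝ) / (δ * ε ^ 2) = 40 * P := by rw [hP]; ring
      rw [h5]
      exact mul_le_mul_of_nonneg_left h3 (by positivity)
    have h5 : 2 + Real.log k ≤ 8 * (P * (a * d)) := by
      have h6 : 2 + Real.log k ≤ 4 * a := by linarith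
      have h7 : 4 * a ≤ 8 * (a * d) := by nlinarith
      have h8 : a * d ≤ P * (a * d) := by nlinarith
      linarith
    calc _ ≤ _ := h1
      _ ≤ 40 * P * ((7 * c2 + 5) * (a * d)) + 8 * (P * (a * d)) := by linarith
      _ = _ := by ring

end Pool.Agent.Helper99.LR2
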