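import Mathlib

/-!
# Summation over all the scales with logarithmic weights
-/

set_option autoImplicit false

open Finset

namespace Pool.Agent.Helper99.LR2

theorem sum_sq_le (J : ℕ) : ∑ i ∈ range J, 1 / ((i : ℝ) + 1) ^ 2 ≤ 2 := by
  have h : ∀ J : ℕ, ∑ i ∈ range (J + 1), 1 / ((i : ℝ) + 1) ^ 2 ≤ 2 - 1 / ((J : ℝ) + 1) := by
    intro J
    induction J with
    | zero => norm_num
    | succ J ih =>
      rw [Finset.sum_range_succ]
      have h1 : (0 : ℝ) < (J : ℝ) + 1 := by positivity
      have h2 : 1 / (((J + 1 : ℕ) : ℝ) + 1) ^ 2 ≤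
          1 / ((J : ℝ) + 1) - 1 / (((J + 1 : ℕ) : ℝ) + 1) := by
        push_cast
        rw [div_sub_div _ _ (by positivity) (by positivity), div_le_div_iff₀ (by positivity)
          (by positivity)]
        nlinarith
      linarith
  rcases Nat.eq_zero_or_pos J with h0 | h0
  · rw [h0]; norm_num
  · obtain ⟨J', rfl⟩ := Nat.exists_eq_succ_of_ne_zero h0.ne'
    have h1 := h J'
    have h2 : (0 : ℝ) ≤ 1 / ((J' : ℝ) + 1) := by positivity
    rw [Nat.succ_eq_add_one]
    linarith

/-- The logarithmic size of a block. -/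
theorem sum_block_le {a c : ℕ} (ha : 0 < a) {t : ℝ} (hc : (c : ℝ) ≤ t * a) (hac : a ≤ c) :
    ∑ m ∈ Ico a c, 1 / (m : ℝ) ≤ 1 + Real.log t := by
  have ha0 : (0 : ℝ) < a := by exact_mod_cast ha
  have hc0 : (0 : ℝ) < c := by
    have : 0 < c := by omega
    exact_mod_cast this
  have h1 : ∀ c : ℕ, a ≤ c → ∑ m ∈ Ico a c, 1 / (m : ℝ) =
      ((harmonic (c - 1) : ℚ) : ℝ) - ((harmonic (a - 1) : ℚ) : ℝ) := by
    intro c hc
    induction c, hc using Nat.le_induction with
    | base => simp
    | succ c hc ih =>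
      rw [Finset.sum_Ico_succ_top hc, ih]
      have h2 : c + 1 - 1 = (c - 1) + 1 := by omega
      rw [h2, harmonic_succ]
      have h3 : c - 1 + 1 = c := by omega
      rw [h3]
      push_cast
      ring
  rw [h1 c hac]
  have h2 := log_add_one_le_harmonic (a - 1)
  have h3 := harmonic_le_one_add_log (c - 1)
  have h4 : a - 1 + 1 = a := by omega
  have h2' : Real.log (a : ℝ) ≤ ((harmonic (a - 1) : ℚ) : ℝ) := by
    rw [h4] at h2
    exact h2
  have h6 : Real.log ((c - 1 : ℕ) : ℝ) ≤ Real.log c := by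
    rcases Nat.eq_zero_or_pos (c - 1) with h | h
    · rw [h]
      simp only [Nat.cast_zero, Real.log_zero]
      apply Real.log_nonneg
      have : 1 ≤ c := by omega
      exact_mod_cast this
    · apply Real.log_le_log
      · exact_mod_cast h
      · exact_mod_cast Nat.sub_le c 1
  have h7 : Real.log c ≤ Real.log t + Real.log a := by
    have ht : 0 < t := by
      by_contra hcc
      push Not at hcc
      nlinarith
    rw [← Real.log_mul ht.ne' ha0.ne']
    exact Real.log_le_log hc0 hc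
  linarith

/-- The weighted sum of the increments of a function that is almost constant between neighbouring
scales. -/
theorem scale_sum {F : ℕ → ℝ} {A Λ : ℝ} {M : ℕ} (hA : 0 ≤ A) (hΛ : 0 ≤ Λ)
    (h0 : ∀ m, 0 ≤ F m) (h1 : ∀ m, 0 < m → m ≤ M → F m ≤ Λ)
    (h2 : ∀ m j : ℕ, 0 < m → F m ≤ F (m + j) + A * ((j : ℝ) / m)) {b R : ℕ} (hb : 0 < b)
    (hM : b * (R + 1) ≤ M + 1) :
    ∑ i ∈ range R, (F (b * (i + 1)) - F (i + 1)) / ((i : ℝ) + 1) ≤
      Λ * (1 + Real.log b) + 2 * (Λ + A) := by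
  have hb0 : (0 : ℝ) < b := by exact_mod_cast hb
  set G : ℕ → ℝ := fun m => F m / m with hG
  have hG0 : ∀ m, 0 ≤ G m := fun m => div_nonneg (h0 m) (Nat.cast_nonneg _)
  -- one scale
  have hstep : ∀ i < R, F (b * (i + 1)) / ((i : ℝ) + 1) ≤
      ∑ j ∈ range b, G (b * (i + 1) + j) + (Λ + A) * (1 / ((i : ℝ) + 1) ^ 2) := by
    intro i hi
    have hr0 : (0 : ℝ) < (i : ℝ) + 1 := by positivity
    have hterm : ∀ j ∈ range b, F (b * (i + 1)) / ((b : ℝ) * ((i : ℝ) + 1)) ≤
        G (b * (i + 1) + j) + (Λ + A) * (1 / ((i : ℝ) + 1) ^ 2) / b := by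
      intro j hj
      rw [Finset.mem_range] at hj
      have hj0 : (0 : ℝ) ≤ j := Nat.cast_nonneg _
      have hjb : (j : ℝ) ≤ b := by exact_mod_cast hj.le
      have hpos : 0 < b * (i + 1) := by positivity
      have h3 := h2 (b * (i + 1)) j hpos
      have h4 : F (b * (i + 1) + j) ≤ Λ := by
        apply h1 _ (by omega)
        have : b * (i + 1) + b ≤ b * (R + 1) := by
          have h5 : b * (i + 1) + b = b * (i + 2) := by ring
          rw [h5]
          exact Nat.mul_le_mul_left _ (by omega)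
        omega
      set x : ℝ := (b : ℝ) * ((i : ℝ) + 1) with hx
      have hx0 : 0 < x := by positivity
      have hcast : ((b * (i + 1) : ℕ) : ℝ) = x := by rw [hx]; push_cast; ring
      rw [hcast] at h3
      have hcast2 : ((b * (i + 1) + j : ℕ) : ℝ) = x + j := by
        push_cast
        rw [hx]
      have hGe : G (b * (i + 1) + j) = F (b * (i + 1) + j) / (x + j) := by
        rw [hG]
        simp only
        rw [hcast2]
      rw [hGe]
      have h5 : F (b * (i + 1)) / x ≤ (F (b * (i + 1) + j) + A * (j / x)) / x :=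
        div_le_div_of_nonneg_right h3 hx0.le
      have h6 : (F (b * (i + 1) + j) + A * (j / x)) / x =
          F (b * (i + 1) + j) / (x + j) + F (b * (i + 1) + j) * (j / (x * (x + j))) +
            A * (j / (x * x)) := by
        field_simp
      have h7 : (j : ℝ) / (x * x) ≤ 1 / ((i : ℝ) + 1) ^ 2 / b := by
        calc (j : ℝ) / (x * x) ≤ b / (x * x) := by gcongr
          _ = 1 / ((i : ℝ) + 1) ^ 2 / b := by
            rw [hx]
            field_simp
      have h8 : (j : ℝ) / (x * (x + j)) ≤ 1 / ((i : ℝ) + 1) ^ 2 / b := by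
        refine le_trans ?_ h7
        apply div_le_div_of_nonneg_left hj0 (by positivity)
        nlinarith
      have h9 : F (b * (i + 1) + j) * (j / (x * (x + j))) ≤
          Λ * (1 / ((i : ℝ) + 1) ^ 2 / b) :=
        mul_le_mul h4 h8 (by positivity) hΛ
      have h10 : A * (j / (x * x)) ≤ A * (1 / ((i : ℝ) + 1) ^ 2 / b) :=
        mul_le_mul_of_nonneg_left h7 hA
      calc F (b * (i + 1)) / x ≤ _ := h5
        _ = _ := h6
        _ ≤ F (b * (i + 1) + j) / (x + j) + Λ * (1 / ((i : ℝ) + 1) ^ 2 / b) +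
            A * (1 / ((i : ℝ) + 1) ^ 2 / b) := by linarith
        _ = _ := by ring
    have h3 := Finset.sum_le_sum hterm
    rw [Finset.sum_const, Finset.card_range, nsmul_eq_mul, Finset.sum_add_distrib,
      Finset.sum_const, Finset.card_range, nsmul_eq_mul] at h3
    have h4 : (b : ℝ) * (F (b * (i + 1)) / ((b : ℝ) * ((i : ℝ) + 1))) =
        F (b * (i + 1)) / ((i : ℝ) + 1) := by
      field_simp
    have h5 : (b : ℝ) * ((Λ + A) * (1 / ((i : ℝ) + 1) ^ 2) / b) =
        (Λ + A) * (1 / ((i : ℝ) + 1) ^ 2) := by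
      field_simp
    rw [h4, h5] at h3
    exact h3
  -- the double sum
  have hdouble : ∀ J : ℕ, ∑ i ∈ range J, ∑ j ∈ range b, G (b * (i + 1) + j) =
      ∑ m ∈ Ico b (b * (J + 1)), G m := by
    intro J
    induction J with
    | zero => simp
    | succ J ih =>
      rw [Finset.sum_range_succ, ih]
      have h3 : ∑ j ∈ range b, G (b * (J + 1) + j) =
          ∑ m ∈ Ico (b * (J + 1)) (b * (J + 1 + 1)), G m := by
        rw [Finset.sum_Ico_eq_sum_range]
        apply Finset.sum_congr _ (fun _ _ => rfl)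
        congr 1
        have : b * (J + 1 + 1) = b * (J + 1) + b := by ring
        omega
      rw [h3, Finset.sum_Ico_consecutive]
      · calc b = b * 1 := (mul_one b).symm
          _ ≤ _ := Nat.mul_le_mul_left _ (by omega)
      · exact Nat.mul_le_mul_left _ (by omega)
  have hG1 : ∑ i ∈ range R, F (i + 1) / ((i : ℝ) + 1) = ∑ m ∈ Ico 1 (R + 1), G m := by
    rw [Finset.sum_Ico_eq_sum_range]
    apply Finset.sum_congr (by simp)
    intro i _
    rw [hG]
    simp only
    rw [add_comm 1 i]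
    push_cast
    rfl
  have hsum1 : ∑ i ∈ range R, F (b * (i + 1)) / ((i : ℝ) + 1) ≤
      ∑ m ∈ Ico b (b * (R + 1)), G m + (Λ + A) * 2 := by
    calc _ ≤ ∑ i ∈ range R, (∑ j ∈ range b, G (b * (i + 1) + j) +
          (Λ + A) * (1 / ((i : ℝ) + 1) ^ 2)) :=
          Finset.sum_le_sum fun i hi => hstep i (Finset.mem_range.mp hi)
      _ = ∑ m ∈ Ico b (b * (R + 1)), G m +
          (Λ + A) * ∑ i ∈ range R, 1 / ((i : ℝ) + 1) ^ 2 := by
          rw [Finset.sum_add_distrib, hdouble, Finset.mul_sum]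
      _ ≤ _ := by
          have := mul_le_mul_of_nonneg_left (sum_sq_le R) (show 0 ≤ Λ + A by linarith)
          linarith
  have hbR : R + 1 ≤ b * (R + 1) := by
    calc R + 1 = 1 * (R + 1) := (one_mul _).symm
      _ ≤ _ := Nat.mul_le_mul_right _ hb
  have hsum2 : ∑ m ∈ Ico b (b * (R + 1)), G m ≤
      ∑ m ∈ Ico 1 (R + 1), G m + ∑ m ∈ Ico (R + 1) (b * (R + 1)), G m := by
    rw [Finset.sum_Ico_consecutive _ (by omega) hbR]
    apply Finset.sum_le_sum_of_subset_of_nonneg
    · apply Finset.Ico_subset_Ico (by omega) le_rfl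
    · intro m _ _
      exact hG0 m
  have hsum3 : ∑ m ∈ Ico (R + 1) (b * (R + 1)), G m ≤ Λ * (1 + Real.log b) := by
    have h3 : ∀ m ∈ Ico (R + 1) (b * (R + 1)), G m ≤ Λ * (1 / (m : ℝ)) := by
      intro m hm
      rw [Finset.mem_Ico] at hm
      have h4 : F m ≤ Λ := h1 m (by omega) (by omega)
      have h5 : (0 : ℝ) ≤ m := Nat.cast_nonneg _
      rw [hG]
      simp only
      calc F m / m ≤ Λ / m := div_le_div_of_nonneg_right h4 h5
        _ = _ := by ring
    refine (Finset.sum_le_sum h3).trans ?_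
    rw [← Finset.mul_sum]
    apply mul_le_mul_of_nonneg_left _ hΛ
    apply sum_block_le (Nat.succ_pos R) _ hbR
    push_cast
    exact le_rfl
  have hsplit : ∑ i ∈ range R, (F (b * (i + 1)) - F (i + 1)) / ((i : ℝ) + 1) =
      ∑ i ∈ range R, F (b * (i + 1)) / ((i : ℝ) + 1) - ∑ i ∈ range R, F (i + 1) / ((i : ℝ) + 1) := by
    rw [← Finset.sum_sub_distrib]
    apply Finset.sum_congr rfl
    intro i _
    rw [sub_div]
  rw [hsplit, hG1]
  linarith

end Pool.Agent.Helper99.LR2
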