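import Pool.Agent.Helper99.LR.Main
import Pool.Agent.Helper99.LR2.Abs
import Pool.Agent.Helper99.LR2.Sum

/-!
# Local regularity of the primes at all scales outside a set of bounded logarithmic size
-/

set_option autoImplicit false

open Finset Real Filter

namespace Pool.Agent.Helper99.LR2

open Pool.Agent.Helper99.LR (gm gm_nonneg pr pr_mono pr_lt small_card)

theorem pr_two {N : ℕ} (hN : 81 ≤ N) : pr (2 * N) ≤ 18 * N * Real.log N := by
  have hN1 : (81 : ℝ) ≤ N := by exact_mod_cast hN
  have hN0 : (0 : ℝ) < N := by linarith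
  have hlN : 1 < Real.log N := by
    rw [Real.lt_log_iff_exp_lt hN0]
    have := Real.exp_one_lt_d9
    linarith
  have h1 := Pool.Agent.Helper30.Gap.nth_lt (N := 2 * N + 1) (by omega)
  have h2 : 2 * N + 1 - 1 = 2 * N := by omega
  rw [h2] at h1
  have h3 : Nat.nth Nat.Prime (2 * N) ≤
      ⌈4 * ((2 * N + 1 : ℕ) : ℝ) * Real.log ((2 * N + 1 : ℕ) : ℝ)⌉₊ := Nat.lt_succ_iff.mp h1
  have h4 : pr (2 * N) ≤ ⌈4 * ((2 * N + 1 : ℕ) : ℝ) * Real.log ((2 * N + 1 : ℕ) : ℝ)⌉₊ := by
    unfold pr
    exact_mod_cast h3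
  have h5 : Real.log ((2 * N + 1 : ℕ) : ℝ) ≤ 2 * Real.log N := by
    rw [show 2 * Real.log N = Real.log ((N : ℝ) ^ 2) by rw [Real.log_pow]; norm_num]
    apply Real.log_le_log
    · push_cast; linarith
    · push_cast; nlinarith
  have h6 := Nat.ceil_lt_add_one (a := 4 * ((2 * N + 1 : ℕ) : ℝ) *
    Real.log ((2 * N + 1 : ℕ) : ℝ)) (by
    have : 0 ≤ Real.log ((2 * N + 1 : ℕ) : ℝ) := Real.log_natCast_nonneg _
    positivity)
  have h7 : 4 * ((2 * N + 1 : ℕ) : ℝ) * Real.log ((2 * N + 1 : ℕ) : ℝ) ≤
      4 * (2 * N + 1) * (2 * Real.log N) := by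
    have h8 : ((2 * N + 1 : ℕ) : ℝ) = 2 * N + 1 := by push_cast; ring
    rw [h8] at h5 ⊢
    exact mul_le_mul_of_nonneg_left h5 (by positivity)
  nlinarith

/-- A bound for `p_(2M)` for all `M ≤ N`. -/
theorem pr_two_le {M N : ℕ} (hN : 81 ≤ N) (hM : 0 < M) (hMN : M ≤ N) :
    pr (2 * M) ≤ M * (120000 * Real.log N) := by
  have hN1 : (81 : ℝ) ≤ N := by exact_mod_cast hN
  have hN0 : (0 : ℝ) < N := by linarith
  have hlN : 1 < Real.log N := by
    rw [Real.lt_log_iff_exp_lt hN0]
    have := Real.exp_one_lt_d9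
    linarith
  have hM1 : (1 : ℝ) ≤ M := by exact_mod_cast hM
  rcases Nat.lt_or_ge M 81 with h | h
  · have h1 : pr (2 * M) ≤ pr (2 * 81) := pr_mono (by omega)
    have h2 := pr_two (le_refl 81)
    have h3 : Real.log ((81 : ℕ) : ℝ) ≤ 80 := by
      have := Real.log_le_sub_one_of_pos (show (0 : ℝ) < ((81 : ℕ) : ℝ) by norm_num)
      norm_num at this ⊢
      linarith
    have h4 : pr (2 * M) ≤ 116640 := by
      refine h1.trans (h2.trans ?_)
      norm_num at h3 ⊢
      linarith
    nlinarith
  · have h2 := pr_two h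
    have h3 : Real.log M ≤ Real.log N := by
      apply Real.log_le_log (by linarith)
      exact_mod_cast hMN
    have h4 : 18 * (M : ℝ) * Real.log M ≤ 18 * M * Real.log N :=
      mul_le_mul_of_nonneg_left h3 (by positivity)
    nlinarith

/-- `r` is a bad step for the places below `N`. -/
def badP (k : ℕ) (ε : ℝ) (r n : ℕ) : Prop :=
  ¬ ∃ d : ℝ, 0 < d ∧ ∀ i < k, |pr (n + (i + 1) * r) - pr (n + i * r) - d| ≤ ε * d

theorem badP_cover {κL ε : ℝ} (hK : 0 < κL) (hε : 0 ≤ ε) (hε1 : ε ≤ 1) {b r n : ℕ} (hb : 0 < b)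
    (hr : 0 < r) (h : badP b ε r n) :
    gm pr (b * r) n < κL ∨ ε ^ 2 / (20 * b) ≤ Dl pr κL b r n := by
  by_contra hc
  push Not at hc
  obtain ⟨h1, h2⟩ := hc
  apply h
  have hr0' : (0 : ℝ) < r := by exact_mod_cast hr
  refine ⟨gm pr (b * r) n * r, mul_pos (by linarith) hr0', ?_⟩
  intro j hj
  by_contra hcc
  push Not at hcc
  refine absurd (Dl_large pr_mono hK hε hε1 hb hr n h1 hj ?_) (not_le.mpr h2)
  have h4 : pr (n + (j + 1) * r) - pr (n + j * r) - gm pr (b * r) n * r =
      (gm pr r (n + j * r) - gm pr (b * r) n) * r := by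
    have h5 : gm pr r (n + j * r) * r = pr (n + (j + 1) * r) - pr (n + j * r) := by
      unfold gm
      rw [div_mul_cancel₀ _ hr0'.ne']
      congr 2
      ring
    rw [sub_mul, h5]
  rw [h4, abs_mul, abs_of_pos hr0'] at hcc
  have h6 : ε * gm pr (b * r) n * r < |gm pr r (n + j * r) - gm pr (b * r) n| * r := by
    linarith
  exact lt_of_mul_lt_mul_right h6 hr0'.le

open scoped Classical in
/-- The weighted sum of the total defects over the scales. -/
theorem weighted {κ : ℝ} (hκ : 0 < κ) {b N R : ℕ} (hb : 0 < b) (hN : 81 ≤ N)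
    (hR : b * (R + 1) ≤ N) :
    ∑ i ∈ range R, (∑ n ∈ range N, Dl pr (κ * Real.log N) b (i + 1) n) / ((i : ℝ) + 1) ≤
      N * (Real.log (1 + 120000 / κ) * (4 + Real.log b) + 2) := by
  have hN1 : (81 : ℝ) ≤ N := by exact_mod_cast hN
  have hN0 : (0 : ℝ) < N := by linarith
  have hb0 : (0 : ℝ) < b := by exact_mod_cast hb
  have hlN : 1 < Real.log N := by
    rw [Real.lt_log_iff_exp_lt hN0]
    have := Real.exp_one_lt_d9
    linarith
  set L : ℝ := Real.log N with hL
  have hL0 : 0 < L := by linarith
  set K : ℝ := κ * L with hK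
  have hK0 : 0 < K := by positivity
  set Λ : ℝ := Real.log (1 + 120000 / κ) with hΛ
  have hΛ0 : 0 ≤ Λ := by
    rw [hΛ]
    apply Real.log_nonneg
    have : 0 ≤ 120000 / κ := by positivity
    linarith
  have hlphΛ : lph K (120000 * L) = Λ := by
    unfold lph
    rw [hΛ, hK]
    congr 2
    field_simp
  set F : ℕ → ℝ := fun m => ∑ n ∈ range N, lph K (gm pr m n) with hF
  have hpr0 : 0 ≤ pr 0 := by unfold pr; positivity
  have hF0 : ∀ m, 0 ≤ F m := fun m =>
    Finset.sum_nonneg fun n _ => lph_nonneg hK0 (gm_nonneg pr_mono _ _)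
  have hF1 : ∀ m, 0 < m → m ≤ N → F m ≤ N * Λ := by
    intro m hm hmN
    rw [← hlphΛ]
    apply sum_lph_le pr_mono hK0 hm N (by positivity)
    have h1 : pr (N + m) ≤ pr (2 * N) := pr_mono (by omega)
    have h2 := pr_two_le hN (by omega : 0 < N) le_rfl
    linarith
  have hF2 : ∀ m j : ℕ, 0 < m → F m ≤ F (m + j) + N * ((j : ℝ) / m) := by
    intro m j hm
    calc F m ≤ ∑ n ∈ range N, (lph K (gm pr (m + j) n) + (j : ℝ) / m) :=
          Finset.sum_le_sum fun n _ => lph_near pr_mono hK0 hm n
      _ = _ := by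
          rw [Finset.sum_add_distrib, Finset.sum_const, Finset.card_range, nsmul_eq_mul]
  have hsc := scale_sum (F := F) (A := N) (Λ := N * Λ) (M := N) hN0.le (by positivity) hF0 hF1 hF2
    (b := b) (R := R) hb (by omega)
  have hone : ∀ i ∈ range R, (∑ n ∈ range N, Dl pr K b (i + 1) n) / ((i : ℝ) + 1) ≤
      (F (b * (i + 1)) - F (i + 1)) / ((i : ℝ) + 1) + b * Λ := by
    intro i hi
    rw [Finset.mem_range] at hi
    have hi0 : (0 : ℝ) < (i : ℝ) + 1 := by positivity
    have h1 := sum_Dl_le pr_mono hK0 (r := i + 1) hb N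
    have hbi : b * (i + 1) ≤ N := by
      refine le_trans (Nat.mul_le_mul_left _ ?_) hR
      omega
    have h2 : ∑ n ∈ range (b * (i + 1)), lph K (gm pr (i + 1) n) ≤ (b * (i + 1) : ℕ) * Λ := by
      rw [← hlphΛ]
      apply sum_lph_le pr_mono hK0 (Nat.succ_pos i) _ (by positivity)
      have h3 : pr (b * (i + 1) + (i + 1)) ≤ pr (2 * (b * (i + 1))) := by
        apply pr_mono
        have : 1 * (i + 1) ≤ b * (i + 1) := Nat.mul_le_mul_right _ hb
        omega
      have h4 := pr_two_le hN (by positivity : 0 < b * (i + 1)) hbi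
      linarith
    have h3 : (∑ n ∈ range N, Dl pr K b (i + 1) n) ≤
        (F (b * (i + 1)) - F (i + 1)) + b * Λ * ((i : ℝ) + 1) := by
      push_cast at h2
      linarith
    rw [div_le_iff₀ hi0, add_mul, div_mul_cancel₀ _ hi0.ne']
    exact h3
  have hsum := Finset.sum_le_sum hone
  rw [Finset.sum_add_distrib, Finset.sum_const, Finset.card_range, nsmul_eq_mul] at hsum
  have hbR : (R : ℝ) * (b * Λ) ≤ N * Λ := by
    have h1 : (R : ℝ) * b ≤ N := by
      have h2 : R * b ≤ N := by
        calc R * b = b * R := mul_comm _ _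
          _ ≤ b * (R + 1) := Nat.mul_le_mul_left _ (by omega)
          _ ≤ N := hR
      exact_mod_cast h2
    calc (R : ℝ) * (b * Λ) = R * b * Λ := by ring
      _ ≤ _ := mul_le_mul_of_nonneg_right h1 hΛ0
  refine hsum.trans ?_
  have : N * Λ * (1 + Real.log b) + 2 * (N * Λ + N) + N * Λ =
      (N : ℝ) * (Λ * (4 + Real.log b) + 2) := by ring
  linarith

open scoped Classical in
/-- The set of bad steps has bounded logarithmic size. -/
theorem bad_steps {C : ℝ} (hC : 0 < C)
    (hsm : ∀ κ : ℝ, 0 < κ → ∀ N r : ℕ, 81 ≤ N → 0 < r →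
      (((range N).filter (fun n => gm pr r n < κ * Real.log N)).card : ℝ) ≤ C * κ * N)
    {k : ℕ} (hk : 1 ≤ k) {ε δ : ℝ} (hε : 0 < ε) (hε1 : ε ≤ 1) (hδ : 0 < δ)
    {N : ℕ} (hN : 81 ≤ N) :
    ∑ r ∈ (Icc 1 N).filter (fun r => δ * N < (((range N).filter (badP k ε r)).card : ℝ)),
      1 / (r : ℝ) ≤ 40 * k / (δ * ε ^ 2) *
        (Real.log (1 + 120000 / (δ / (2 * C))) * (4 + Real.log k) + 2) + (2 + Real.log k) := by
  have hN1 : (81 : ℝ) ≤ N := by exact_mod_cast hN
  have hN0 : (0 : ℝ) < N := by linarith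
  have hk1 : (1 : ℝ) ≤ k := by exact_mod_cast hk
  have hk0 : (0 : ℝ) < k := by linarith
  have hlk : 0 ≤ Real.log k := Real.log_nonneg hk1
  set κ : ℝ := δ / (2 * C) with hκ
  have hκ0 : 0 < κ := by positivity
  have hlN : 1 < Real.log N := by
    rw [Real.lt_log_iff_exp_lt hN0]
    have := Real.exp_one_lt_d9
    linarith
  have hΛ0 : 0 ≤ Real.log (1 + 120000 / κ) := by
    apply Real.log_nonneg
    have : 0 ≤ 120000 / κ := by positivity
    linarith
  set X : ℝ := Real.log (1 + 120000 / κ) * (4 + Real.log k) + 2 with hX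
  have hX0 : 0 ≤ X := by positivity
  have hmain0 : 0 ≤ 40 * (k : ℝ) / (δ * ε ^ 2) * X := by positivity
  set Bad : Finset ℕ := (Icc 1 N).filter
    (fun r => δ * N < (((range N).filter (badP k ε r)).card : ℝ)) with hBad
  rcases Nat.lt_or_ge N k with hNk | hNk
  · -- few scales in all
    have h1 : ∑ r ∈ Bad, 1 / (r : ℝ) ≤ ∑ m ∈ Ico 1 (N + 1), 1 / (m : ℝ) := by
      apply Finset.sum_le_sum_of_subset_of_nonneg
      · intro r hr
        rw [hBad, Finset.mem_filter, Finset.mem_Icc] at hr
        rw [Finset.mem_Ico]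
        omega
      · intro m _ _
        positivity
    have h2 : ∑ m ∈ Ico 1 (N + 1), 1 / (m : ℝ) ≤ 1 + Real.log k := by
      apply sum_block_le one_pos _ (by omega)
      have : N + 1 ≤ k := hNk
      push_cast
      rw [mul_one]
      exact_mod_cast this
    linarith
  · set R : ℕ := N / k - 1 with hR
    have hNk1 : 1 ≤ N / k := (Nat.one_le_div_iff (by omega)).mpr hNk
    have hR1 : R + 1 = N / k := by omega
    have hRN : k * (R + 1) ≤ N := by
      rw [hR1]
      exact Nat.mul_div_le N k
    -- large steps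
    have htail : ∑ m ∈ Ico (R + 1) (N + 1), 1 / (m : ℝ) ≤ 2 + Real.log k := by
      have h1 : ∑ m ∈ Ico (R + 1) (N + 1), 1 / (m : ℝ) ≤ 1 + Real.log (2 * k) := by
        apply sum_block_le (Nat.succ_pos R)
        · have h2 : N + 1 ≤ 2 * k * (R + 1) := by
            have h3 : N < k * (N / k + 1) := Nat.lt_mul_div_succ N (by omega)
            rw [hR1]
            have h4 : k * (N / k + 1) ≤ 2 * k * (N / k) := by
              have h5 : k * (N / k + 1) = k * (N / k) + k * 1 := by ring
              have h6 : k * 1 ≤ k * (N / k) := Nat.mul_le_mul_left _ hNk1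
              have h7 : 2 * k * (N / k) = k * (N / k) + k * (N / k) := by ring
              omega
            omega
          exact_mod_cast h2
        · have : 1 * (R + 1) ≤ k * (R + 1) := Nat.mul_le_mul_right _ hk
          omega
      have h2 : Real.log (2 * k) = Real.log 2 + Real.log k :=
        Real.log_mul (by norm_num) hk0.ne'
      have h3 := Real.log_two_lt_d9
      linarith
    -- small steps
    have hsmall : ∑ i ∈ (range R).filter (fun i => i + 1 ∈ Bad), 1 / ((i : ℝ) + 1) ≤
        40 * k / (δ * ε ^ 2) * X := by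
      have hone : ∀ i ∈ (range R).filter (fun i => i + 1 ∈ Bad), 1 / ((i : ℝ) + 1) ≤
          40 * k / (δ * ε ^ 2 * N) *
            ((∑ n ∈ range N, Dl pr (κ * Real.log N) k (i + 1) n) / ((i : ℝ) + 1)) := by
        intro i hi
        rw [Finset.mem_filter, Finset.mem_range, hBad, Finset.mem_filter] at hi
        obtain ⟨hiR, _, hbad⟩ := hi
        have hi0 : (0 : ℝ) < (i : ℝ) + 1 := by positivity
        set A : Finset ℕ := (range N).filter
          (fun n => gm pr (k * (i + 1)) n < κ * Real.log N) with hA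
        set E : Finset ℕ := (range N).filter
          (fun n => ε ^ 2 / (20 * k) ≤ Dl pr (κ * Real.log N) k (i + 1) n) with hE
        have hAc : (A.card : ℝ) ≤ δ / 2 * N := by
          have h1 := hsm κ hκ0 N (k * (i + 1)) hN (by positivity)
          have h2 : C * κ * N = δ / 2 * N := by
            rw [hκ]
            field_simp
          rw [h2] at h1
          exact h1
        have hcov : (range N).filter (badP k ε (i + 1)) ⊆ A ∪ E := by
          intro n hn
          rw [Finset.mem_filter] at hn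
          rw [Finset.mem_union, hA, hE, Finset.mem_filter, Finset.mem_filter]
          rcases badP_cover (κL := κ * Real.log N) (by positivity) hε.le hε1 (by omega)
            (Nat.succ_pos i) hn.2 with h1 | h1
          · exact Or.inl ⟨hn.1, h1⟩
          · exact Or.inr ⟨hn.1, h1⟩
        have h1 : (((range N).filter (badP k ε (i + 1))).card : ℝ) ≤ (A.card : ℝ) + E.card := by
          exact_mod_cast (Finset.card_le_card hcov).trans (Finset.card_union_le _ _)
        have hEc : δ / 2 * N ≤ (E.card : ℝ) := by linarith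
        have h2 : (E.card : ℝ) * (ε ^ 2 / (20 * k)) ≤
            ∑ n ∈ range N, Dl pr (κ * Real.log N) k (i + 1) n := by
          calc _ = ∑ n ∈ E, ε ^ 2 / (20 * (k : ℝ)) := by
                rw [Finset.sum_const, nsmul_eq_mul]
            _ ≤ ∑ n ∈ E, Dl pr (κ * Real.log N) k (i + 1) n := by
                apply Finset.sum_le_sum
                intro n hn
                rw [hE, Finset.mem_filter] at hn
                exact hn.2
            _ ≤ _ := by
                apply Finset.sum_le_sum_of_subset_of_nonneg (Finset.filter_subset _ _)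
                intro n _ _
                exact Dl_nonneg pr_mono (by positivity) (by omega) (Nat.succ_pos i) n
        have h3 : δ / 2 * N * (ε ^ 2 / (20 * k)) ≤
            ∑ n ∈ range N, Dl pr (κ * Real.log N) k (i + 1) n :=
          le_trans (mul_le_mul_of_nonneg_right hEc (by positivity)) h2
        have h4 : 1 / ((i : ℝ) + 1) = 40 * k / (δ * ε ^ 2 * N) *
            ((δ / 2 * N * (ε ^ 2 / (20 * k))) / ((i : ℝ) + 1)) := by
          field_simp
          norm_num
        rw [h4]
        apply mul_le_mul_of_nonneg_left _ (by positivity)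
        exact div_le_div_of_nonneg_right h3 hi0.le
      refine (Finset.sum_le_sum hone).trans ?_
      rw [← Finset.mul_sum]
      have h1 : ∑ i ∈ (range R).filter (fun i => i + 1 ∈ Bad),
          ((∑ n ∈ range N, Dl pr (κ * Real.log N) k (i + 1) n) / ((i : ℝ) + 1)) ≤ N * X := by
        refine le_trans ?_ (weighted hκ0 (b := k) (by omega) hN hRN)
        apply Finset.sum_le_sum_of_subset_of_nonneg (Finset.filter_subset _ _)
        intro i _ _
        apply div_nonneg _ (by positivity)
        apply Finset.sum_nonneg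
        intro n _
        exact Dl_nonneg pr_mono (by positivity) (by omega) (Nat.succ_pos i) n
      calc _ ≤ 40 * k / (δ * ε ^ 2 * N) * (N * X) :=
            mul_le_mul_of_nonneg_left h1 (by positivity)
        _ = _ := by
            field_simp
    -- all together
    have hsplit : ∑ r ∈ Bad, 1 / (r : ℝ) ≤
        ∑ i ∈ (range R).filter (fun i => i + 1 ∈ Bad), 1 / ((i : ℝ) + 1) +
          ∑ m ∈ Ico (R + 1) (N + 1), 1 / (m : ℝ) := by
      have h1 : ∑ i ∈ (range R).filter (fun i => i + 1 ∈ Bad), 1 / ((i : ℝ) + 1) =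
          ∑ r ∈ ((range R).filter (fun i => i + 1 ∈ Bad)).image (fun i : ℕ => i + 1),
            1 / (r : ℝ) := by
        rw [Finset.sum_image (fun a _ b _ (h : a + 1 = b + 1) => Nat.succ_injective h)]
        apply Finset.sum_congr rfl
        intro i _
        push_cast
        rfl
      rw [h1, ← Finset.sum_union]
      · apply Finset.sum_le_sum_of_subset_of_nonneg
        · intro r hr
          have hr' := hr
          rw [hBad, Finset.mem_filter, Finset.mem_Icc] at hr'
          rw [Finset.mem_union, Finset.mem_image, Finset.mem_Ico]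
          rcases Nat.lt_or_ge r (R + 1) with h2 | h2
          · left
            refine ⟨r - 1, ?_, by omega⟩
            rw [Finset.mem_filter, Finset.mem_range]
            have h3 : r - 1 + 1 = r := by omega
            rw [h3]
            exact ⟨by omega, hr⟩
          · right
            omega
        · intro m _ _
          positivity
      · rw [Finset.disjoint_left]
        intro r hr1 hr2
        rw [Finset.mem_image] at hr1
        obtain ⟨i, hi, rfl⟩ := hr1
        rw [Finset.mem_filter, Finset.mem_range] at hi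
        rw [Finset.mem_Ico] at hr2
        omega
    linarith

end Pool.Agent.Helper99.LR2
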