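import Pool.Agent.Helper99.LR.Window
import Pool.Agent.Helper99.LR2.Abs

/-!
# From a window with few close pairs to a local progression, with the logarithmic potential
-/

set_option autoImplicit false

open Finset

namespace Pool.Agent.Helper99.LR2

open Pool.Agent.Helper99.LR (gm gm_nonneg cnt prs wp wp_le wp_ge wp_window cnt_window small_pairs)

/-- The total defect over `I` scales in a finite window. -/
theorem sum_scales {p : ℕ → ℝ} (hp : Monotone p) {K a : ℝ} (hK : 0 < K) (ha : 0 ≤ a)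
    {b I N : ℕ} (hb : 0 < b) (hI : 0 < I) (hIN : I ^ 2 * b ^ I ≤ N)
    (hlen : p (N + b ^ I) - p 0 ≤ N * a) :
    ∑ i ∈ range I, ∑ n ∈ range N, Dl p K b (b ^ i) n ≤ N * (2 * lph K a + 2) := by
  have hI0 : (0 : ℝ) < I := by exact_mod_cast hI
  have hI1 : (1 : ℝ) ≤ I := by exact_mod_cast hI
  have hbI : 0 < b ^ I := by positivity
  have hN0 : 0 < N := lt_of_lt_of_le (by positivity) hIN
  have hN0r : (0 : ℝ) < N := by exact_mod_cast hN0
  have hbN : b ^ I ≤ N := by
    refine le_trans ?_ hIN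
    exact Nat.le_mul_of_pos_left _ (by positivity)
  have hΛ0 : 0 ≤ lph K a := lph_nonneg hK ha
  -- telescoping
  have h1 : ∀ J : ℕ, ∑ i ∈ range J, ∑ n ∈ range N, Dl p K b (b ^ i) n ≤
      ∑ n ∈ range N, lph K (gm p (b ^ J) n) - ∑ n ∈ range N, lph K (gm p (b ^ 0) n) +
        ∑ i ∈ range J, ∑ n ∈ range (b * b ^ i), lph K (gm p (b ^ i) n) := by
    intro J
    induction J with
    | zero => simp
    | succ J ih =>
      rw [Finset.sum_range_succ, Finset.sum_range_succ _ J]
      have h2 := sum_Dl_le hp hK (r := b ^ J) hb N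
      rw [pow_succ' b J]
      linarith
  have h2 : ∑ n ∈ range N, lph K (gm p (b ^ I) n) ≤ N * lph K a :=
    sum_lph_le hp hK hbI N ha hlen
  have h3 : 0 ≤ ∑ n ∈ range N, lph K (gm p (b ^ 0) n) :=
    Finset.sum_nonneg fun n _ => lph_nonneg hK (gm_nonneg hp _ _)
  -- the boundary terms
  have h4 : ∀ i ∈ range I, ∑ n ∈ range (b * b ^ i), lph K (gm p (b ^ i) n) ≤
      N / I * (lph K a + 2) := by
    intro i hi
    rw [Finset.mem_range] at hi
    obtain ⟨M, hM⟩ : ∃ M : ℕ, M = b * b ^ i := ⟨_, rfl⟩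
    rw [← hM]
    have hM0 : 0 < M := by rw [hM]; positivity
    have hM0r : (0 : ℝ) < M := by exact_mod_cast hM0
    have hMI : M ≤ b ^ I := by
      rw [hM, ← pow_succ']
      exact Nat.pow_le_pow_right hb hi
    have hMN : (I : ℝ) ^ 2 * M ≤ N := by
      have : I ^ 2 * M ≤ N := le_trans (Nat.mul_le_mul_left _ hMI) hIN
      exact_mod_cast this
    have hMN1 : (M : ℝ) ≤ N := by
      have : M ≤ N := hMI.trans hbN
      exact_mod_cast this
    have h5 : ∑ n ∈ range M, lph K (gm p (b ^ i) n) ≤ M * lph K (N * a / M) := by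
      apply sum_lph_le hp hK (by positivity) M (by positivity)
      have h6 : p (M + b ^ i) ≤ p (N + b ^ I) := by
        apply hp
        have h7 : b ^ i ≤ b ^ I := Nat.pow_le_pow_right hb hi.le
        omega
      have h7 : (M : ℝ) * (N * a / M) = N * a := by field_simp
      rw [h7]
      linarith
    have h6 : lph K (N * a / M) ≤ lph K a + Real.log (N / M) := by
      unfold lph
      rw [← Real.log_mul (by positivity) (by positivity)]
      apply Real.log_le_log (by positivity)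
      have h7 : 1 ≤ (N : ℝ) / M := by
        rw [le_div_iff₀ hM0r]
        linarith
      have h8 : (1 + a / K) * ((N : ℝ) / M) = N / M + N * a / M / K := by
        field_simp
      rw [h8]
      linarith
    have h7 : Real.log ((N : ℝ) / M) ≤ 2 * Real.sqrt ((N : ℝ) / M) := by
      have hx : (0 : ℝ) < (N : ℝ) / M := by positivity
      have h8 := Real.log_le_sub_one_of_pos (Real.sqrt_pos.mpr hx)
      have h9 : Real.log ((N : ℝ) / M) = 2 * Real.log (Real.sqrt ((N : ℝ) / M)) := by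
        conv_lhs => rw [← Real.sq_sqrt hx.le]
        rw [Real.log_pow]
        norm_num
      rw [h9]
      linarith
    have h8 : (M : ℝ) * (2 * Real.sqrt ((N : ℝ) / M)) ≤ 2 * (N / I) := by
      have hx : (0 : ℝ) ≤ (N : ℝ) / M := by positivity
      have h9 : Real.sqrt ((N : ℝ) / M) ≤ (N / I) / M := by
        rw [Real.sqrt_le_left (by positivity)]
        have h10 : ((N : ℝ) / I / M) ^ 2 = (N / M) * (N / (I ^ 2 * M)) := by
          field_simp
        rw [h10]
        have h11 : 1 ≤ (N : ℝ) / (I ^ 2 * M) := by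
          rw [le_div_iff₀ (by positivity)]
          linarith
        nlinarith
      calc (M : ℝ) * (2 * Real.sqrt ((N : ℝ) / M)) ≤ M * (2 * ((N / I) / M)) := by gcongr
        _ = _ := by field_simp
    have h9 : (M : ℝ) * lph K a ≤ N / I * lph K a := by
      apply mul_le_mul_of_nonneg_right _ hΛ0
      rw [le_div_iff₀ hI0]
      nlinarith
    have h10 : (M : ℝ) * lph K (N * a / M) ≤ M * (lph K a + 2 * Real.sqrt ((N : ℝ) / M)) :=
      mul_le_mul_of_nonneg_left (by linarith) hM0r.le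
    have h11 : (M : ℝ) * (lph K a + 2 * Real.sqrt ((N : ℝ) / M)) =
        M * lph K a + M * (2 * Real.sqrt ((N : ℝ) / M)) := by ring
    linarith
  have h5 := Finset.sum_le_sum h4
  rw [Finset.sum_const, Finset.card_range, nsmul_eq_mul] at h5
  have h6 : (I : ℝ) * (N / I * (lph K a + 2)) = N * (lph K a + 2) := by field_simp
  rw [h6] at h5
  have h7 := h1 I
  have h8 : (N : ℝ) * (2 * lph K a + 2) = N * lph K a + N * (lph K a + 2) := by ring
  linarith

/-- A good place at one of the scales, in a finite window. -/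
theorem det {p : ℕ → ℝ} (hp : Monotone p) {K a ε : ℝ} (hK : 0 < K) (ha : 0 ≤ a) (hε : 0 < ε)
    (hε1 : ε ≤ 1) {b I N : ℕ} (hb : 0 < b) (hI : 0 < I) (hIN : I ^ 2 * b ^ I ≤ N)
    (hlen : p (N + b ^ I) - p 0 ≤ N * a)
    (hsm : ∑ i ∈ range I, (((range N).filter (fun n => gm p (b * b ^ i) n < K)).card : ℝ) ≤
      I * N / 4)
    (hd : 54 * b * (lph K a + 1) / ε ^ 2 ≤ I) :
    ∃ i < I, ∃ n < N, K ≤ gm p (b * b ^ i) n ∧
      ∀ j < b, |gm p (b ^ i) (n + j * b ^ i) - gm p (b * b ^ i) n| ≤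
        ε * gm p (b * b ^ i) n := by
  classical
  by_contra hcon
  push Not at hcon
  have hb0 : (0 : ℝ) < b := by exact_mod_cast hb
  have hI0 : (0 : ℝ) < I := by exact_mod_cast hI
  have hN0 : 0 < N := lt_of_lt_of_le (by positivity) hIN
  have hN0r : (0 : ℝ) < N := by exact_mod_cast hN0
  have hΛ0 : 0 ≤ lph K a := lph_nonneg hK ha
  set A : ℕ → Finset ℕ := fun i => (range N).filter (fun n => gm p (b * b ^ i) n < K) with hA
  set E : ℕ → Finset ℕ := fun i =>
    (range N).filter (fun n => ε ^ 2 / (20 * b) ≤ Dl p K b (b ^ i) n) with hE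
  have hcov : ∀ i ∈ range I, (N : ℝ) ≤ (A i).card + (E i).card := by
    intro i hi
    rw [Finset.mem_range] at hi
    have h1 : range N ⊆ A i ∪ E i := by
      intro n hn
      by_contra hcc
      rw [Finset.mem_union, not_or] at hcc
      simp only [hA, hE, Finset.mem_filter, not_and] at hcc
      obtain ⟨h1, h3⟩ := hcc
      have h1' := h1 hn
      have h3' := h3 hn
      push Not at h1'
      obtain ⟨j, hj, hj2⟩ := hcon i hi n (Finset.mem_range.mp hn) h1'
      exact h3' (Dl_large hp hK hε.le hε1 hb (by positivity) n h1' hj hj2)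
    have h2 := (Finset.card_le_card h1).trans (Finset.card_union_le _ _)
    rw [Finset.card_range] at h2
    exact_mod_cast h2
  have h1 := Finset.sum_le_sum hcov
  rw [Finset.sum_const, Finset.card_range, nsmul_eq_mul, Finset.sum_add_distrib] at h1
  have h3 : (∑ i ∈ range I, ((E i).card : ℝ)) * (ε ^ 2 / (20 * b)) ≤ N * (2 * lph K a + 2) := by
    refine le_trans ?_ (sum_scales hp hK ha hb hI hIN hlen)
    rw [Finset.sum_mul]
    apply Finset.sum_le_sum
    intro i _
    calc ((E i).card : ℝ) * (ε ^ 2 / (20 * b)) = ∑ n ∈ E i, ε ^ 2 / (20 * (b : ℝ)) := by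
          rw [Finset.sum_const, nsmul_eq_mul]
      _ ≤ ∑ n ∈ E i, Dl p K b (b ^ i) n := by
          apply Finset.sum_le_sum
          intro n hn
          exact (Finset.mem_filter.mp hn).2
      _ ≤ _ := by
          apply Finset.sum_le_sum_of_subset_of_nonneg (Finset.filter_subset _ _)
          intro n _ _
          exact Dl_nonneg hp hK hb (by positivity) n
  have h4 : 3 / 4 * (I * N) ≤ ∑ i ∈ range I, ((E i).card : ℝ) := by linarith
  have h5 : 3 / 4 * (I * N) * (ε ^ 2 / (20 * b)) ≤ N * (2 * lph K a + 2) :=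
    le_trans (mul_le_mul_of_nonneg_right h4 (by positivity)) h3
  have h6 : N * (2 * lph K a + 2) < 3 / 4 * (I * N) * (ε ^ 2 / (20 * b)) := by
    have h7 : 54 * b * (lph K a + 1) ≤ I * ε ^ 2 := by
      rw [div_le_iff₀ (by positivity)] at hd
      exact hd
    have h8 : 3 / 4 * (I * N) * (ε ^ 2 / (20 * (b : ℝ))) = N * (3 / (80 * b) * (I * ε ^ 2)) := by
      field_simp
      norm_num
    rw [h8]
    apply mul_lt_mul_of_pos_left _ hN0r
    have h9 : 3 / (80 * (b : ℝ)) * (54 * b * (lph K a + 1)) ≤ 3 / (80 * b) * (I * ε ^ 2) :=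
      mul_le_mul_of_nonneg_left h7 (by positivity)
    have h10 : 3 / (80 * (b : ℝ)) * (54 * b * (lph K a + 1)) = 81 / 40 * (lph K a + 1) := by
      field_simp
      norm_num
    rw [h10] at h9
    linarith
  linarith

/-- A local progression in a window. -/
theorem window {M κ0 Q E n : ℕ} (hM : 0 < M) (hκ : 0 < κ0) (hQ : 0 < Q) (hκE : κ0 ≤ E)
    (ho : ∀ j ∈ (range (Q * M * E + 1)).filter
      (fun j => ∀ a : Fin M × Fin κ0, Q * (a.1.val * E + a.2.val) ≠ j), ¬ (n + j).Prime)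
    {b I : ℕ} (hb : 0 < b) (hI : 0 < I) {lam ε : ℝ} (hlam : 0 < lam)
    (hε : 0 < ε) (hε1 : ε ≤ 1)
    (hc : lam * M ≤ cnt (fun a : Fin M × Fin κ0 => Q * (a.1.val * E + a.2.val)) n)
    (hp : ∑ i ∈ range I, prs (fun a : Fin M × Fin κ0 => Q * (a.1.val * E + a.2.val))
      (b * b ^ i + 1) n / ((b * b ^ i : ℕ) : ℝ) ≤
        I * cnt (fun a : Fin M × Fin κ0 => Q * (a.1.val * E + a.2.val)) n / 8)
    (hlM : 2 * ((I ^ 2 + 1) * (b : ℝ) ^ I) + 2 ≤ lam * M)
    (hd : 54 * b * (Real.log (1 + 2 / lam) + 1) / ε ^ 2 ≤ I) :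
    ∃ i < I, ∃ m : ℕ, ∃ d : ℝ, (Q * E : ℕ) ≤ d ∧ d ≤ (Q * M * E : ℕ) ∧
      wp n (m + b * b ^ i) ≤ n + Q * M * E ∧
      ∀ j < b, |(wp n (m + (j + 1) * b ^ i) : ℝ) - wp n (m + j * b ^ i) - d| ≤ ε * d := by
  classical
  set Nn : ℕ := ((range (Q * M * E + 1)).filter (fun k => (n + k).Prime)).card with hNn
  have hcN := cnt_window (M := M) (n := n) hQ hκE
  rw [← hNn] at hcN
  set h : Fin M × Fin κ0 → ℕ := fun a => Q * (a.1.val * E + a.2.val) with hh
  have hE0 : 0 < E := by omega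
  have hQE : (0 : ℝ) < (Q * E : ℕ) := by exact_mod_cast Nat.mul_pos hQ hE0
  have hb0 : (0 : ℝ) < b := by exact_mod_cast hb
  have hb1 : (1 : ℝ) ≤ b := by exact_mod_cast hb
  have hI0 : (0 : ℝ) < I := by exact_mod_cast hI
  have hMr : (0 : ℝ) < M := by exact_mod_cast hM
  have hNlow : 2 * ((I ^ 2 + 1) * (b : ℝ) ^ I) + 2 ≤ Nn := by linarith
  have hNlow' : 2 * ((I ^ 2 + 1) * b ^ I) + 2 ≤ Nn := by exact_mod_cast hNlow
  have hexp : (I ^ 2 + 1) * b ^ I = I ^ 2 * b ^ I + b ^ I := by ring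
  obtain ⟨N', hN'⟩ : ∃ N' : ℕ, N' + b ^ I + 1 = Nn := ⟨Nn - b ^ I - 1, by omega⟩
  have hIb : 1 * b ^ I ≤ I ^ 2 * b ^ I := Nat.mul_le_mul_right _ (Nat.one_le_pow _ _ hI)
  have hN'2 : Nn ≤ 2 * N' := by omega
  have hIN' : I ^ 2 * b ^ I ≤ N' := by omega
  have hN'2r : (Nn : ℝ) ≤ 2 * N' := by exact_mod_cast hN'2
  have hpow : ∀ i < I, b * b ^ i ≤ b ^ I := by
    intro i hi
    rw [← pow_succ']
    exact Nat.pow_le_pow_right hb hi
  have hwp : Monotone (fun i => (wp n i : ℝ)) := fun i j hij => by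
    change (wp n i : ℝ) ≤ (wp n j : ℝ)
    exact_mod_cast wp_le hij
  have hlph : lph ((Q * E : ℕ) : ℝ) (2 / lam * (Q * E : ℕ)) = Real.log (1 + 2 / lam) := by
    unfold lph
    congr 2
    field_simp
  obtain ⟨i, hi, m, hm, h1, h3⟩ := det (p := fun i => (wp n i : ℝ)) hwp
    (K := ((Q * E : ℕ) : ℝ)) (a := 2 / lam * (Q * E : ℕ)) (ε := ε)
    hQE (by positivity) hε hε1 hb hI hIN' (by
      have e1 := wp_window (n := n) (m := N' + b ^ I) (H := Q * M * E) (by omega)
      have e2 := wp_ge n 0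
      have e3 : (wp n (N' + b ^ I) : ℝ) ≤ (n : ℝ) + (Q * M * E : ℕ) := by exact_mod_cast e1
      have e4 : (n : ℝ) ≤ wp n 0 := by exact_mod_cast e2
      have e5 : (M : ℝ) ≤ N' * (2 / lam) := by
        have e6 : lam * M ≤ 2 * N' := by linarith
        calc (M : ℝ) = lam * M / lam := by field_simp
          _ ≤ 2 * N' / lam := div_le_div_of_nonneg_right e6 hlam.le
          _ = _ := by ring
      have e6 : ((Q * M * E : ℕ) : ℝ) = M * (Q * E : ℕ) := by push_cast; ring
      have e7 : (M : ℝ) * (Q * E : ℕ) ≤ N' * (2 / lam) * (Q * E : ℕ) :=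
        mul_le_mul_of_nonneg_right e5 hQE.le
      have e8 : (N' : ℝ) * (2 / lam) * (Q * E : ℕ) = N' * (2 / lam * (Q * E : ℕ)) := by ring
      linarith) (by
      have e1 : ∀ i ∈ range I, (((range N').filter (fun m =>
          gm (fun i => (wp n i : ℝ)) (b * b ^ i) m < (Q * E : ℕ))).card : ℝ) ≤
          prs h (b * b ^ i + 1) n / ((b * b ^ i : ℕ) : ℝ) := by
        intro i hi
        rw [Finset.mem_range] at hi
        have e2 : 0 < b * b ^ i := by positivity
        have e3 := hpow i hi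
        rw [le_div_iff₀ (by exact_mod_cast e2)]
        exact small_pairs hM hκ hκE ho e2 (by omega)
      refine (Finset.sum_le_sum e1).trans (hp.trans ?_)
      have e2 : (I : ℝ) * cnt h n ≤ I * Nn := mul_le_mul_of_nonneg_left hcN hI0.le
      have e3 : (I : ℝ) * Nn ≤ I * (2 * N') := mul_le_mul_of_nonneg_left hN'2r hI0.le
      linarith) (by
      rw [hlph]
      exact hd)
  have hbi : (1 : ℝ) ≤ (b : ℝ) ^ i := one_le_pow₀ hb1
  have hbi0 : (0 : ℝ) < (b : ℝ) ^ i := by positivity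
  set g : ℝ := gm (fun i => (wp n i : ℝ)) (b * b ^ i) m with hg
  have hlast : wp n (m + b * b ^ i) ≤ n + Q * M * E := by
    have e3 := hpow i hi
    exact wp_window (by omega)
  refine ⟨i, hi, m, (b : ℝ) ^ i * g, ?_, ?_, hlast, ?_⟩
  · nlinarith
  · have e1 : g * (b * (b : ℝ) ^ i) = (wp n (m + b * b ^ i) : ℝ) - wp n m := by
      rw [hg]
      unfold gm
      push_cast
      field_simp
    have e2 : (wp n (m + b * b ^ i) : ℝ) ≤ (n : ℝ) + (Q * M * E : ℕ) := by exact_mod_cast hlast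
    have e3 : (n : ℝ) ≤ wp n m := by exact_mod_cast wp_ge n m
    have e4 : 0 ≤ g := gm_nonneg hwp _ _
    have e5 : (b : ℝ) ^ i * g ≤ g * (b * (b : ℝ) ^ i) := by
      have : 0 ≤ (b : ℝ) ^ i * g := by positivity
      nlinarith
    linarith
  · intro j hj
    have h4 := h3 j hj
    have h5 : (wp n (m + (j + 1) * b ^ i) : ℝ) - wp n (m + j * b ^ i) - (b : ℝ) ^ i * g =
        (gm (fun i => (wp n i : ℝ)) (b ^ i) (m + j * b ^ i) - g) * (b : ℝ) ^ i := by
      unfold gm
      have e1 : m + j * b ^ i + b ^ i = m + (j + 1) * b ^ i := by ring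
      rw [e1]
      push_cast
      field_simp
    rw [h5, abs_mul, abs_of_pos hbi0]
    calc _ ≤ ε * g * (b : ℝ) ^ i := mul_le_mul_of_nonneg_right h4 hbi0.le
      _ = _ := by ring

end Pool.Agent.Helper99.LR2
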