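import Pool.Agent.Helper1.MT.BlocksLogOf
import Pool.Agent.Helper99.LR2.Window

/-!
# Local progressions at every scale up to a constant times `log x`
-/

set_option autoImplicit false

open Finset

namespace Pool.Agent.Helper99.LR2

open Pool.Agent.Helper1.MT (Setup Reg NS SingAvg ShiftsU NS_floor)
open Pool.Agent.Helper99.LR (pr pr_mono pick2 wp wp_le wp_ge)

theorem scales_of {c1 : ℝ} (hc1 : 0 < c1)
    (hb : ∀ (κ : Type) [Fintype κ] [DecidableEq κ] (J D0 : ℕ) (A : ℝ),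
      0 < Fintype.card κ → 10 * 2 ^ J ≤ 8 * Fintype.card κ * (J + 2) →
      (Fintype.card κ + 3) ^ 10 ≤ D0 → 1 ≤ A → ∃ X0 : ℝ, 3 ≤ X0 ∧ ∀ x : ℝ, X0 ≤ x →
      ∀ (h : κ → ℕ) (W v : ℕ), Setup D0 h W v → Reg D0 W → (W : ℝ) ≤ Real.log x ^ A →
      (∀ i, (h i : ℝ) ≤ Real.log x ^ A) →
      ∃ (u : ℕ → ℝ) (S : ℝ), (∀ n, 0 ≤ u n) ∧ 0 < S ∧ ∑ n ∈ NS x W v, u n ≤ 2 * S ∧
        (∀ m : κ, c1 * ((J + 2) / Fintype.card κ) * S ≤
          ∑ n ∈ (NS x W v).filter (fun n => (n + h m).Prime), u n) ∧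
        (∀ m m' : κ, m ≠ m' →
          ∑ n ∈ (NS x W v).filter (fun n => (n + h m).Prime ∧ (n + h m').Prime), u n ≤
            2 * ((J + 2) / (10 * Fintype.card κ)) ^ 2 * S) ∧
        (∀ j : ℕ, (∀ i, h i ≠ j) →
          ∑ n ∈ (NS x W v).filter (fun n => (n + j).Prime), u n ≤
            6000 * D0 / Real.log x *
              (∏ p ∈ (∏ i, ((h i : ℤ) - j).natAbs).primeFactors, (1 + 1 / (p : ℝ))) * S))
    (hY : SingAvg) (hC : ShiftsU) :
    ∃ C : ℝ, 0 < C ∧ ∀ k : ℕ, 1 ≤ k → ∀ ε : ℝ, 0 < ε → ε ≤ 1 → ∃ (B : ℕ) (c x0 : ℝ), 0 < c ∧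
      ∀ x : ℝ, x0 ≤ x → ∀ D : ℕ, B ≤ D → (D : ℝ) ≤ c * Real.log x →
      ∃ (n r : ℕ) (d : ℝ), 1 ≤ r ∧ (r : ℝ) ≤ Real.exp (C * (k * Real.log (k + 1)) / ε ^ 2) ∧
        (D : ℝ) ≤ d ∧ d ≤ B * D ∧
        x ^ (1 / 2 : ℝ) ≤ pr n ∧ pr (n + k * r) ≤ 2 * x ∧
        ∀ i < k, |pr (n + (i + 1) * r) - pr (n + i * r) - d| ≤ ε * d := by
  classical
  obtain ⟨e1, he1⟩ : ∃ e1 : ℝ, e1 = 5 * c1 / 8 := ⟨_, rfl⟩
  have he10 : 0 < e1 := by rw [he1]; positivity
  obtain ⟨lam, hlamd⟩ : ∃ lam : ℝ, lam = e1 * c1 / 16 := ⟨_, rfl⟩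
  have hlam : 0 < lam := by rw [hlamd]; positivity
  obtain ⟨T0, hT0d⟩ : ∃ T0 : ℝ, T0 = Real.log (1 + 2 / lam) + 1 := ⟨_, rfl⟩
  have hT01 : 1 ≤ T0 := by
    rw [hT0d]
    have : 0 ≤ Real.log (1 + 2 / lam) := by
      apply Real.log_nonneg
      have : 0 ≤ 2 / lam := by positivity
      linarith
    linarith
  have hT0 : 0 < T0 := by linarith
  refine ⟨108 * T0 + 1, by positivity, ?_⟩
  intro k hk ε hε hε1
  have hk1 : (1 : ℝ) ≤ k := by exact_mod_cast hk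
  obtain ⟨b, hbd⟩ : ∃ b : ℕ, b = k + 1 := ⟨_, rfl⟩
  have hbr : (b : ℝ) = k + 1 := by rw [hbd]; push_cast; ring
  have hb0 : 0 < b := by omega
  have hb0r : (0 : ℝ) < b := by exact_mod_cast hb0
  obtain ⟨I, hId⟩ : ∃ I : ℕ, I = ⌈54 * b * T0 / ε ^ 2⌉₊ := ⟨_, rfl⟩
  have hIlow : 54 * b * T0 / ε ^ 2 ≤ I := by rw [hId]; exact Nat.le_ceil _
  have hIpos' : 0 < 54 * b * T0 / ε ^ 2 := by positivity
  have hIr : (0 : ℝ) < I := lt_of_lt_of_le hIpos' hIlow
  have hI0 : 0 < I := by exact_mod_cast hIr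
  have hQ1 : 1 ≤ 1 / ε ^ 2 := by
    rw [le_div_iff₀ (by positivity), one_mul]
    exact pow_le_one₀ hε.le hε1
  have hIup : (I : ℝ) ≤ (108 * T0 + 1) * k * (1 / ε ^ 2) := by
    have h1 := Nat.ceil_lt_add_one hIpos'.le
    rw [← hId] at h1
    have h2 : (b : ℝ) ≤ 2 * k := by
      rw [hbr]; linarith
    have h3 : 54 * b * T0 / ε ^ 2 ≤ 108 * T0 * k * (1 / ε ^ 2) := by
      have : 54 * T0 * (1 / ε ^ 2) * b ≤ 54 * T0 * (1 / ε ^ 2) * (2 * k) :=
        mul_le_mul_of_nonneg_left h2 (by positivity)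
      calc 54 * b * T0 / ε ^ 2 = 54 * T0 * (1 / ε ^ 2) * b := by ring
        _ ≤ _ := this
        _ = _ := by ring
    have h4 : 1 ≤ (k : ℝ) * (1 / ε ^ 2) := by nlinarith
    linarith
  have hbI : (b : ℝ) ^ I ≤ Real.exp ((108 * T0 + 1) * (k * Real.log (k + 1)) / ε ^ 2) := by
    have h3 : (b : ℝ) = Real.exp (Real.log (k + 1)) := by
      rw [Real.exp_log (by linarith), hbr]
    have h5 : 0 ≤ Real.log ((k : ℝ) + 1) := Real.log_nonneg (by linarith)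
    calc (b : ℝ) ^ I = (Real.exp (Real.log (k + 1))) ^ I := by rw [← h3]
      _ = Real.exp (I * Real.log (k + 1)) := by rw [Real.exp_nat_mul]
      _ ≤ _ := by
        apply Real.exp_le_exp.mpr
        calc (I : ℝ) * Real.log (k + 1) ≤ ((108 * T0 + 1) * k * (1 / ε ^ 2)) * Real.log (k + 1) :=
              mul_le_mul_of_nonneg_right hIup h5
          _ = _ := by ring
  -- the number of slots
  obtain ⟨M, hMd⟩ : ∃ M : ℕ, M = ⌈(2 * ((I ^ 2 + 1) * (b : ℝ) ^ I) + 2) / lam⌉₊ + ⌈4 / e1⌉₊ + 1 :=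
    ⟨_, rfl⟩
  have hM0 : 0 < M := by omega
  have hMr : (0 : ℝ) < M := by exact_mod_cast hM0
  have hlM : 2 * ((I ^ 2 + 1) * (b : ℝ) ^ I) + 2 ≤ lam * M := by
    have h1 : (2 * ((I ^ 2 + 1) * (b : ℝ) ^ I) + 2) / lam ≤ M :=
      (Nat.le_ceil _).trans (by
        exact_mod_cast (by omega : ⌈(2 * ((I ^ 2 + 1) * (b : ℝ) ^ I) + 2) / lam⌉₊ ≤ M))
    rw [div_le_iff₀ hlam] at h1
    linarith
  have heM : 4 ≤ e1 * M := by
    have h1 : 4 / e1 ≤ M := (Nat.le_ceil _).trans (by exact_mod_cast (by omega : ⌈4 / e1⌉₊ ≤ M))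
    rw [div_le_iff₀ he10] at h1
    linarith
  obtain ⟨J, hJ1, hJ2⟩ : ∃ J : ℕ, ((J : ℝ) + 2) ≤ e1 * M ∧ e1 * M / 2 ≤ (J : ℝ) + 2 := by
    have h1 : 4 ≤ ⌊e1 * M⌋₊ := Nat.le_floor (by exact_mod_cast heM)
    refine ⟨⌊e1 * M⌋₊ - 2, ?_, ?_⟩
    · have h2 : ((⌊e1 * M⌋₊ - 2 : ℕ) : ℝ) + 2 = ⌊e1 * M⌋₊ := by
        push_cast [(by omega : 2 ≤ ⌊e1 * M⌋₊)]
        ring
      rw [h2]
      exact Nat.floor_le (by positivity)
    · have h2 : ((⌊e1 * M⌋₊ - 2 : ℕ) : ℝ) + 2 = ⌊e1 * M⌋₊ := by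
        push_cast [(by omega : 2 ≤ ⌊e1 * M⌋₊)]
        ring
      rw [h2]
      have h3 := Nat.lt_floor_add_one (e1 * M)
      linarith
  obtain ⟨κ0, hκ0⟩ : ∃ κ0 : ℕ, κ0 = 2 ^ (J + 1) := ⟨_, rfl⟩
  have hκ00 : 0 < κ0 := by rw [hκ0]; positivity
  have hκ0r : (0 : ℝ) < κ0 := by exact_mod_cast hκ00
  obtain ⟨D0, hD0⟩ : ∃ D0 : ℕ, D0 = (M * κ0 + 3) ^ 10 := ⟨_, rfl⟩
  have hD00 : 0 < D0 := by rw [hD0]; positivity
  have hD0r : (0 : ℝ) < D0 := by exact_mod_cast hD00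
  obtain ⟨Q, D1, hQ, hD1, hsh⟩ := hC M κ0 D0 hM0 hκ00 (by
    rw [hD0]
    exact Nat.pow_le_pow_left (by omega) 10)
  have hQr : (0 : ℝ) < Q := by exact_mod_cast hQ
  obtain ⟨CK, hCK0, hCK⟩ := hY (M * κ0)
  have hcard : Fintype.card (Fin M × Fin κ0) = M * κ0 := by simp
  obtain ⟨X0, hX03, hb'⟩ := hb (Fin M × Fin κ0) J D0 (D1 + 1 : ℕ) (by rw [hcard]; positivity) (by
      rw [hcard]
      have h1 : 1 * 2 ^ (J + 1) ≤ M * κ0 := by
        rw [hκ0]
        exact Nat.mul_le_mul hM0 le_rfl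
      have h2 : (2 : ℕ) ^ (J + 1) = 2 * 2 ^ J := by ring
      have h3 : 0 < 2 ^ J := by positivity
      nlinarith) (by rw [hcard, hD0]) (by exact_mod_cast (by omega : 1 ≤ D1 + 1))
  set c : ℝ := min (1 / (2 * Q * M)) (e1 * c1 / (16 * κ0 * 12000 * D0 * CK * Q * M)) with hc
  have hc0 : 0 < c := lt_min (by positivity) (by positivity)
  refine ⟨D1 + 2 * (Q * M), c, max X0 3, hc0, ?_⟩
  intro x hx D hD hDc
  have hxX : X0 ≤ x := (le_max_left _ _).trans hx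
  have hx3 : 3 ≤ x := (le_max_right _ _).trans hx
  have hD1D : D1 ≤ D := by omega
  have hlog1 : 1 ≤ Real.log x := by
    rw [Real.le_log_iff_exp_le (by linarith)]
    exact (Real.exp_one_lt_d9.le.trans (by norm_num)).trans hx3
  have hlog0 : 0 < Real.log x := by linarith
  obtain ⟨E, W, v, hDE, hE2, hSet, hReg, hW⟩ := hsh D hD1D
  have hc1' : c ≤ 1 / (2 * Q * M) := min_le_left _ _
  have hc2' : c ≤ e1 * c1 / (16 * κ0 * 12000 * D0 * CK * Q * M) := min_le_right _ _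
  have hYle : ((Q * M * E : ℕ) : ℝ) ≤ 2 * Q * M * (c * Real.log x) := by
    have h1 : (E : ℝ) ≤ 2 * D := by exact_mod_cast hE2
    push_cast
    calc (Q : ℝ) * M * E ≤ Q * M * (2 * D) := by gcongr
      _ = 2 * Q * M * D := by ring
      _ ≤ _ := by gcongr
  have hYlog : ((Q * M * E : ℕ) : ℝ) ≤ Real.log x := by
    refine hYle.trans ?_
    calc 2 * Q * M * (c * Real.log x) = 2 * Q * M * c * Real.log x := by ring
      _ ≤ 2 * Q * M * (1 / (2 * Q * M)) * Real.log x := by gcongr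
      _ = Real.log x := by field_simp
  have hDlog : (D : ℝ) ≤ Real.log x := by
    refine le_trans ?_ hYlog
    have h1 : 1 * 1 * D ≤ Q * M * E := Nat.mul_le_mul (Nat.mul_le_mul hQ hM0) hDE
    rw [one_mul, one_mul] at h1
    exact_mod_cast h1
  have hpow1 : Real.log x ≤ Real.log x ^ ((D1 + 1 : ℕ) : ℝ) := by
    rw [Real.rpow_natCast]
    exact le_self_pow₀ hlog1 (by omega)
  have hWlog : (W : ℝ) ≤ Real.log x ^ ((D1 + 1 : ℕ) : ℝ) := by
    rw [Real.rpow_natCast]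
    calc (W : ℝ) ≤ (D : ℝ) ^ D1 := by exact_mod_cast hW
      _ ≤ Real.log x ^ D1 := by gcongr
      _ ≤ Real.log x ^ (D1 + 1) := pow_le_pow_right₀ hlog1 (by omega)
  have hκE : κ0 ≤ E := by omega
  -- the shifts are at most Q M E
  have hshift : ∀ a : Fin M × Fin κ0, Q * (a.1.val * E + a.2.val) ≤ Q * M * E := by
    intro a
    have h1 := a.1.isLt
    have h2 := a.2.isLt
    have h3 : (a.1.val + 1) * E ≤ M * E := Nat.mul_le_mul_right _ h1
    rw [mul_assoc]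
    apply Nat.mul_le_mul_left
    rw [add_mul, one_mul] at h3
    omega
  obtain ⟨u, S, hu, hS0, hT, hs, hp, ho⟩ := hb' x hxX _ W v hSet hReg hWlog (fun a => by
    refine le_trans ?_ hpow1
    refine le_trans ?_ hYlog
    exact_mod_cast hshift a)
  rw [hcard] at hs hp
  set h : Fin M × Fin κ0 → ℕ := fun a => Q * (a.1.val * E + a.2.val) with hh
  set Yf : Finset ℕ := (range (Q * M * E + 1)).filter
      (fun j => ∀ a : Fin M × Fin κ0, h a ≠ j) with hYf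
  have hYsum : ∑ j ∈ Yf, ∑ n ∈ (NS x W v).filter (fun n => (n + j).Prime), u n ≤
      e1 * c1 / (16 * κ0) * S := by
    have h1 : ∑ j ∈ Yf, ∑ n ∈ (NS x W v).filter (fun n => (n + j).Prime), u n ≤
        ∑ j ∈ Yf, 6000 * D0 / Real.log x *
          (∏ p ∈ (∏ i, ((h i : ℤ) - j).natAbs).primeFactors, (1 + 1 / (p : ℝ))) * S := by
      refine Finset.sum_le_sum fun j hj => ho j ?_
      rw [hYf, mem_filter] at hj
      exact hj.2
    refine h1.trans ?_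
    rw [← Finset.sum_mul, ← Finset.mul_sum]
    have h2 : ∑ j ∈ Yf, ∏ p ∈ (∏ i, ((h i : ℤ) - j).natAbs).primeFactors, (1 + 1 / (p : ℝ)) ≤
        CK * (Q * M * E : ℕ) := by
      have h3 := hCK (Q * M * E) (fun i => h (finProdFinEquiv.symm i)) (by
        have : 1 * 1 * 1 ≤ Q * M * E := Nat.mul_le_mul (Nat.mul_le_mul hQ hM0) (by omega)
        omega) (fun i => hshift _)
      refine le_trans (le_of_eq ?_) h3
      have h4 : Yf = (range (Q * M * E + 1)).filter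
          (fun j => ∀ i : Fin (M * κ0), h (finProdFinEquiv.symm i) ≠ j) := by
        rw [hYf]
        refine Finset.filter_congr fun j _ => ?_
        constructor
        · intro h5 i
          exact h5 _
        · intro h5 a
          have := h5 (finProdFinEquiv a)
          rwa [Equiv.symm_apply_apply] at this
      rw [h4]
      refine Finset.sum_congr rfl fun j _ => ?_
      have h5 : (∏ i : Fin (M * κ0), ((h (finProdFinEquiv.symm i) : ℤ) - j).natAbs) =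
          ∏ a : Fin M × Fin κ0, ((h a : ℤ) - j).natAbs :=
        Equiv.prod_comp finProdFinEquiv.symm (fun a => ((h a : ℤ) - j).natAbs)
      rw [h5]
    calc _ ≤ 6000 * D0 / Real.log x * (CK * (Q * M * E : ℕ)) * S := by gcongr
      _ ≤ 6000 * D0 / Real.log x * (CK * (2 * Q * M * (c * Real.log x))) * S := by gcongr
      _ = 12000 * D0 * CK * Q * M * c * S := by
        field_simp
        ring
      _ ≤ 12000 * D0 * CK * Q * M *
          (e1 * c1 / (16 * κ0 * 12000 * D0 * CK * Q * M)) * S := by gcongr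
      _ = e1 * c1 / (16 * κ0) * S := by
        field_simp
  obtain ⟨n, hn, hn1, hn2, hn3⟩ := pick2 hM0 hκ00 hI0 hb0 hc1 he1 hJ1 hJ2 h (NS x W v) u Yf hu hS0
    hT hs hp hYsum
  rw [← hlamd] at hn1
  obtain ⟨i, hi, m, d, h1, h2, h3, h4⟩ := window hM0 hκ00 hQ hκE hn3 hb0 hI0 hlam hε hε1 hn1 hn2
    hlM (by rw [← hT0d]; exact hIlow)
  have hEr : (E : ℝ) ≤ 2 * D := by exact_mod_cast hE2
  have hbi : (b : ℝ) ^ i ≤ (b : ℝ) ^ I := by
    apply pow_le_pow_right₀ _ hi.le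
    exact_mod_cast hb0
  refine ⟨Nat.count Nat.Prime n + m, b ^ i, d, Nat.one_le_pow _ _ hb0, ?_, ?_, ?_, ?_, ?_, ?_⟩
  · push_cast
    exact hbi.trans hbI
  · refine le_trans ?_ h1
    exact_mod_cast hDE.trans (Nat.le_mul_of_pos_left E hQ)
  · refine h2.trans ?_
    have h5 : Q * M * E ≤ (D1 + 2 * (Q * M)) * D := by
      calc Q * M * E ≤ Q * M * (2 * D) := Nat.mul_le_mul_left _ hE2
        _ = 2 * (Q * M) * D := by ring
        _ ≤ _ := Nat.mul_le_mul_right _ (by omega)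
    exact_mod_cast h5
  · have e1 := NS_floor hn
    have e2 := Nat.lt_floor_add_one (x ^ (1 / 2 : ℝ))
    have e3 : ((⌊x ^ (1 / 2 : ℝ)⌋₊ : ℝ) + 1) ≤ n := by exact_mod_cast e1
    have e4 : (n : ℝ) ≤ pr (Nat.count Nat.Prime n + m) := by
      unfold pr
      exact_mod_cast wp_ge n m
    linarith
  · have e1 : (n : ℝ) ≤ x := by
      unfold NS at hn
      rw [mem_filter, mem_Ioc] at hn
      exact (Nat.le_floor_iff (by linarith)).1 hn.1.2
    have e2 : wp n (m + k * b ^ i) ≤ n + Q * M * E := by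
      refine le_trans (wp_le ?_) h3
      have : k * b ^ i ≤ b * b ^ i := Nat.mul_le_mul_right _ (by omega)
      omega
    have e3 : pr (Nat.count Nat.Prime n + m + k * b ^ i) ≤ (n : ℝ) + (Q * M * E : ℕ) := by
      unfold pr
      have e4 : wp n (m + k * b ^ i) = Nat.nth Nat.Prime (Nat.count Nat.Prime n + m + k * b ^ i) := by
        unfold wp
        rw [add_assoc]
      rw [← e4]
      exact_mod_cast e2
    have e5 : Real.log x ≤ x := by
      have := Real.log_le_sub_one_of_pos (show 0 < x by linarith)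
      linarith
    linarith
  · intro s hs'
    have e1 := h4 s (by omega)
    unfold wp at e1
    unfold pr
    rw [add_assoc, add_assoc]
    exact e1

end Pool.Agent.Helper99.LR2
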