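import Pool.Agent.Helper99.LR.Window
import Pool.Agent.Helper99.LR2.Abs
import Pool.Agent.Helper99.LR2.Sum

/-!
# From a window with few close pairs to a local progression, with steps from a given set
-/

set_option autoImplicit false

open Finset

namespace Pool.Agent.Helper99.LR2

open Pool.Agent.Helper99.LR (gm gm_nonneg cnt prs wp wp_le wp_ge wp_window cnt_window small_pairs)

/-- The weighted total defect over the steps `r ≤ R` in a finite window. -/
theorem sum_steps {p : ℕ → ℝ} (hp : Monotone p) {K a : ℝ} (hK : 0 < K) (ha : 0 ≤ a)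
    {b R N : ℕ} (hb : 0 < b) (hR : 0 < R) (hRN : 4 * b * R ^ 2 ≤ N)
    (hlen : p (N + b * (R + 1)) - p 0 ≤ N * a) :
    ∑ i ∈ range R, 1 / ((i : ℝ) + 1) * ∑ n ∈ range N, Dl p K b (i + 1) n ≤
      N * (lph K a * (4 + Real.log b) + 3) := by
  have hR0 : (0 : ℝ) < R := by exact_mod_cast hR
  have hR1 : (1 : ℝ) ≤ R := by exact_mod_cast hR
  have hb0 : (0 : ℝ) < b := by exact_mod_cast hb
  have hN0 : 0 < N := lt_of_lt_of_le (by positivity) hRN
  have hN0r : (0 : ℝ) < N := by exact_mod_cast hN0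
  have hΛ0 : 0 ≤ lph K a := lph_nonneg hK ha
  have hRNr : 4 * (b : ℝ) * (R : ℝ) ^ 2 ≤ N := by exact_mod_cast hRN
  have hbRN : (b : ℝ) * R ≤ N := by nlinarith
  have hlph : ∀ m n : ℕ, 0 ≤ lph K (gm p m n) := fun m n => lph_nonneg hK (gm_nonneg hp _ _)
  set F : ℕ → ℝ := fun m => (∑ n ∈ range N, lph K (gm p m n)) / N with hF
  have hF0 : ∀ m, 0 ≤ F m := fun m =>
    div_nonneg (Finset.sum_nonneg fun n _ => hlph m n) (Nat.cast_nonneg _)
  have hF1 : ∀ m, 0 < m → m ≤ b * (R + 1) → F m ≤ lph K a := by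
    intro m hm hmR
    rw [hF]
    simp only
    rw [div_le_iff₀ hN0r]
    have h1 := sum_lph_le hp hK hm N ha (by
      have h2 := hp (show N + m ≤ N + b * (R + 1) by omega)
      linarith)
    linarith
  have hF2 : ∀ m j : ℕ, 0 < m → F m ≤ F (m + j) + 1 * ((j : ℝ) / m) := by
    intro m j hm
    have h1 := Finset.sum_le_sum (s := range N) fun n _ => lph_near hp hK (j := j) hm n
    rw [Finset.sum_add_distrib, Finset.sum_const, Finset.card_range, nsmul_eq_mul] at h1
    rw [hF]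
    simp only
    rw [div_add' _ _ _ hN0r.ne']
    apply div_le_div_of_nonneg_right _ hN0r.le
    linarith
  have hsc := scale_sum (A := 1) (M := b * (R + 1)) (R := R) zero_le_one hΛ0 hF0 hF1 hF2 hb
    (by omega)
  -- the boundary terms
  have hbd : ∀ i < R, ∑ n ∈ range (b * (i + 1)), lph K (gm p (i + 1) n) ≤
      N * (((i : ℝ) + 1) / R * (lph K a + 1)) := by
    intro i hi
    obtain ⟨M, hM⟩ : ∃ M : ℕ, M = b * (i + 1) := ⟨_, rfl⟩
    rw [← hM]
    have hM0 : 0 < M := by rw [hM]; positivity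
    have hM0r : (0 : ℝ) < M := by exact_mod_cast hM0
    have hMr : (M : ℝ) = b * ((i : ℝ) + 1) := by rw [hM]; push_cast; ring
    have hi0 : (0 : ℝ) < (i : ℝ) + 1 := by positivity
    have hiR : (i : ℝ) + 1 ≤ R := by exact_mod_cast hi
    have hMN1 : (M : ℝ) ≤ N := by
      rw [hMr]
      have : (b : ℝ) * ((i : ℝ) + 1) ≤ b * R := mul_le_mul_of_nonneg_left hiR hb0.le
      linarith
    have h5 : ∑ n ∈ range M, lph K (gm p (i + 1) n) ≤ M * lph K (N * a / M) := by
      apply sum_lph_le hp hK (by positivity) M (by positivity)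
      have h6 : p (M + (i + 1)) ≤ p (N + b * (R + 1)) := by
        apply hp
        have h7 : M ≤ N := by exact_mod_cast hMN1
        have h8 : 1 * (R + 1) ≤ b * (R + 1) := Nat.mul_le_mul_right _ hb
        omega
      have h7 : (M : ℝ) * (N * a / M) = N * a := by field_simp
      rw [h7]
      linarith
    have h6 : lph K (N * a / M) ≤ lph K a + Real.log (N / M) := by
      unfold lph
      rw [← Real.log_mul (by positivity) (by positivity)]
      apply Real.log_le_log (by positivity)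
      have h7 : 1 ≤ (N : ℝ) / M := by
        rw [le_div_iff₀ hM0r]
        linarith
      have h8 : (1 + a / K) * ((N : ℝ) / M) = N / M + N * a / M / K := by
        field_simp
      rw [h8]
      linarith
    have h7 : Real.log ((N : ℝ) / M) ≤ 2 * Real.sqrt ((N : ℝ) / M) := by
      have hx : (0 : ℝ) < (N : ℝ) / M := by positivity
      have h8 := Real.log_le_sub_one_of_pos (Real.sqrt_pos.mpr hx)
      have h9 : Real.log ((N : ℝ) / M) = 2 * Real.log (Real.sqrt ((N : ℝ) / M)) := by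
        conv_lhs => rw [← Real.sq_sqrt hx.le]
        rw [Real.log_pow]
        norm_num
      rw [h9]
      linarith
    have h8 : (M : ℝ) * (2 * Real.sqrt ((N : ℝ) / M)) ≤ N * (((i : ℝ) + 1) / R) := by
      have h9 : Real.sqrt ((N : ℝ) / M) ≤ N / (2 * R * b) := by
        rw [Real.sqrt_le_left (by positivity), hMr]
        have h10 : (N : ℝ) / (b * ((i : ℝ) + 1)) =
            (N / (2 * R * b)) ^ 2 * (4 * b * R ^ 2 / (N * ((i : ℝ) + 1))) := by
          field_simp
          ring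
        rw [h10]
        have h11 : 4 * b * (R : ℝ) ^ 2 / (N * ((i : ℝ) + 1)) ≤ 1 := by
          rw [div_le_one (by positivity)]
          nlinarith
        exact mul_le_of_le_one_right (by positivity) h11
      calc (M : ℝ) * (2 * Real.sqrt ((N : ℝ) / M)) ≤ M * (2 * (N / (2 * R * b))) := by gcongr
        _ = _ := by
          rw [hMr]
          field_simp
    have h9 : (M : ℝ) * lph K a ≤ N * (((i : ℝ) + 1) / R * lph K a) := by
      rw [← mul_assoc]
      apply mul_le_mul_of_nonneg_right _ hΛ0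
      rw [hMr, ← mul_div_assoc, le_div_iff₀ hR0]
      nlinarith
    have h10 : (M : ℝ) * lph K (N * a / M) ≤ M * (lph K a + 2 * Real.sqrt ((N : ℝ) / M)) :=
      mul_le_mul_of_nonneg_left (by linarith) hM0r.le
    have h11 : (M : ℝ) * (lph K a + 2 * Real.sqrt ((N : ℝ) / M)) =
        M * lph K a + M * (2 * Real.sqrt ((N : ℝ) / M)) := by ring
    have h12 : (N : ℝ) * (((i : ℝ) + 1) / R * (lph K a + 1)) =
        N * (((i : ℝ) + 1) / R * lph K a) + N * (((i : ℝ) + 1) / R) := by ring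
    linarith
  have hterm : ∀ i ∈ range R, 1 / ((i : ℝ) + 1) * ∑ n ∈ range N, Dl p K b (i + 1) n ≤
      N * ((F (b * (i + 1)) - F (i + 1)) / ((i : ℝ) + 1) + 1 / R * (lph K a + 1)) := by
    intro i hi
    rw [Finset.mem_range] at hi
    have hi0 : (0 : ℝ) < (i : ℝ) + 1 := by positivity
    have h1 := sum_Dl_le hp hK (r := i + 1) hb N
    have h2 := hbd i hi
    have h3 : ∑ n ∈ range N, lph K (gm p (b * (i + 1)) n) = N * F (b * (i + 1)) := by
      rw [hF]
      field_simp
    have h4 : ∑ n ∈ range N, lph K (gm p (i + 1) n) = N * F (i + 1) := by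
      rw [hF]
      field_simp
    rw [h3, h4] at h1
    calc 1 / ((i : ℝ) + 1) * ∑ n ∈ range N, Dl p K b (i + 1) n
        ≤ 1 / ((i : ℝ) + 1) * (N * F (b * (i + 1)) - N * F (i + 1) +
          N * (((i : ℝ) + 1) / R * (lph K a + 1))) :=
          mul_le_mul_of_nonneg_left (by linarith) (by positivity)
      _ = _ := by
          field_simp
  have h1 := Finset.sum_le_sum hterm
  rw [← Finset.mul_sum, Finset.sum_add_distrib, Finset.sum_const, Finset.card_range,
    nsmul_eq_mul] at h1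
  refine h1.trans (mul_le_mul_of_nonneg_left ?_ hN0r.le)
  have h2 : (R : ℝ) * (1 / R * (lph K a + 1)) = lph K a + 1 := by field_simp
  rw [h2]
  have h3 : lph K a * (4 + Real.log b) = lph K a * (1 + Real.log b) + 3 * lph K a := by ring
  linarith

/-- A good place for one of the steps, in a finite window. -/
theorem detT {p : ℕ → ℝ} (hp : Monotone p) {K a ε s : ℝ} (hK : 0 < K) (ha : 0 ≤ a) (hε : 0 < ε)
    (hε1 : ε ≤ 1) {b R N : ℕ} (hb : 0 < b) (hR : 0 < R) (hRN : 4 * b * R ^ 2 ≤ N)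
    (hlen : p (N + b * (R + 1)) - p 0 ≤ N * a)
    {T : Finset ℕ} (hT1 : ∀ r ∈ T, 1 ≤ r ∧ r ≤ R) (hs : s = ∑ r ∈ T, 1 / (r : ℝ))
    (hsm : ∑ r ∈ T, 1 / (r : ℝ) * (((range N).filter (fun n => gm p (b * r) n < K)).card : ℝ) ≤
      s * N / 4)
    (hd : 27 * b * (lph K a * (4 + Real.log b) + 3) / ε ^ 2 ≤ s) :
    ∃ r ∈ T, ∃ n < N, K ≤ gm p (b * r) n ∧
      ∀ j < b, |gm p r (n + j * r) - gm p (b * r) n| ≤ ε * gm p (b * r) n := by
  classical
  by_contra hcon
  push Not at hcon
  have hb0 : (0 : ℝ) < b := by exact_mod_cast hb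
  have hb1 : (1 : ℝ) ≤ b := by exact_mod_cast hb
  have hN0 : 0 < N := lt_of_lt_of_le (by positivity) hRN
  have hN0r : (0 : ℝ) < N := by exact_mod_cast hN0
  have hΛ0 : 0 ≤ lph K a := lph_nonneg hK ha
  have hlog : 0 ≤ Real.log b := Real.log_nonneg hb1
  set A : ℕ → Finset ℕ := fun r => (range N).filter (fun n => gm p (b * r) n < K) with hA
  set E : ℕ → Finset ℕ := fun r =>
    (range N).filter (fun n => ε ^ 2 / (20 * b) ≤ Dl p K b r n) with hE
  have hcov : ∀ r ∈ T, 1 / (r : ℝ) * N ≤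
      1 / (r : ℝ) * (A r).card + 1 / (r : ℝ) * (E r).card := by
    intro r hr
    have hr1 := (hT1 r hr).1
    have h1 : range N ⊆ A r ∪ E r := by
      intro n hn
      by_contra hcc
      rw [Finset.mem_union, not_or] at hcc
      simp only [hA, hE, Finset.mem_filter, not_and] at hcc
      obtain ⟨h1, h3⟩ := hcc
      have h1' := h1 hn
      have h3' := h3 hn
      push Not at h1'
      obtain ⟨j, hj, hj2⟩ := hcon r hr n (Finset.mem_range.mp hn) h1'
      exact h3' (Dl_large hp hK hε.le hε1 hb hr1 n h1' hj hj2)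
    have h2 := (Finset.card_le_card h1).trans (Finset.card_union_le _ _)
    rw [Finset.card_range] at h2
    have h3 : (N : ℝ) ≤ (A r).card + (E r).card := by exact_mod_cast h2
    have h4 := mul_le_mul_of_nonneg_left h3 (show (0 : ℝ) ≤ 1 / (r : ℝ) by positivity)
    linarith
  have h1 := Finset.sum_le_sum hcov
  rw [← Finset.sum_mul, ← hs, Finset.sum_add_distrib] at h1
  have h3 : (∑ r ∈ T, 1 / (r : ℝ) * ((E r).card : ℝ)) * (ε ^ 2 / (20 * b)) ≤
      N * (lph K a * (4 + Real.log b) + 3) := by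
    refine le_trans ?_ (sum_steps hp hK ha hb hR hRN hlen)
    have h4 : ∑ i ∈ range R, 1 / ((i : ℝ) + 1) * ∑ n ∈ range N, Dl p K b (i + 1) n =
        ∑ r ∈ Ico 1 (R + 1), 1 / (r : ℝ) * ∑ n ∈ range N, Dl p K b r n := by
      rw [Finset.sum_Ico_eq_sum_range]
      apply Finset.sum_congr (by simp)
      intro i _
      rw [add_comm 1 i]
      push_cast
      rfl
    rw [h4, Finset.sum_mul]
    have hTs : T ⊆ Ico 1 (R + 1) := by
      intro r hr
      have := hT1 r hr
      rw [Finset.mem_Ico]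
      omega
    refine le_trans (Finset.sum_le_sum ?_) (Finset.sum_le_sum_of_subset_of_nonneg hTs
      (fun r hr _ => mul_nonneg (by positivity) (Finset.sum_nonneg fun n _ =>
        Dl_nonneg hp hK hb (by rw [Finset.mem_Ico] at hr; omega) n)))
    intro r hr
    rw [mul_assoc]
    apply mul_le_mul_of_nonneg_left _ (by positivity)
    calc ((E r).card : ℝ) * (ε ^ 2 / (20 * b)) = ∑ n ∈ E r, ε ^ 2 / (20 * (b : ℝ)) := by
          rw [Finset.sum_const, nsmul_eq_mul]
      _ ≤ ∑ n ∈ E r, Dl p K b r n := by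
          apply Finset.sum_le_sum
          intro n hn
          exact (Finset.mem_filter.mp hn).2
      _ ≤ _ := by
          apply Finset.sum_le_sum_of_subset_of_nonneg (Finset.filter_subset _ _)
          intro n _ _
          exact Dl_nonneg hp hK hb (hT1 r hr).1 n
  have h4 : 3 / 4 * (s * N) ≤ ∑ r ∈ T, 1 / (r : ℝ) * ((E r).card : ℝ) := by linarith
  have h5 : 3 / 4 * (s * N) * (ε ^ 2 / (20 * b)) ≤ N * (lph K a * (4 + Real.log b) + 3) :=
    le_trans (mul_le_mul_of_nonneg_right h4 (by positivity)) h3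
  have h6 : N * (lph K a * (4 + Real.log b) + 3) < 3 / 4 * (s * N) * (ε ^ 2 / (20 * b)) := by
    set G : ℝ := lph K a * (4 + Real.log b) + 3 with hG
    have hG0 : 0 < G := by
      have : 0 ≤ lph K a * (4 + Real.log b) := by positivity
      linarith
    have h7 : 27 * b * G ≤ s * ε ^ 2 := by
      rw [div_le_iff₀ (by positivity)] at hd
      exact hd
    have h8 : 3 / 4 * (s * N) * (ε ^ 2 / (20 * (b : ℝ))) = N * (3 / (80 * b) * (s * ε ^ 2)) := by
      field_simp
      ring
    rw [h8]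
    apply mul_lt_mul_of_pos_left _ hN0r
    have h9 : 3 / (80 * (b : ℝ)) * (27 * b * G) ≤ 3 / (80 * b) * (s * ε ^ 2) :=
      mul_le_mul_of_nonneg_left h7 (by positivity)
    have h10 : 3 / (80 * (b : ℝ)) * (27 * b * G) = 81 / 80 * G := by
      field_simp
      norm_num
    rw [h10] at h9
    linarith
  linarith

/-- A local progression in a window, with step in a given set. -/
theorem windowT {M κ0 Q E n : ℕ} (hM : 0 < M) (hκ : 0 < κ0) (hQ : 0 < Q) (hκE : κ0 ≤ E)
    (ho : ∀ j ∈ (range (Q * M * E + 1)).filter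
      (fun j => ∀ a : Fin M × Fin κ0, Q * (a.1.val * E + a.2.val) ≠ j), ¬ (n + j).Prime)
    {b R : ℕ} (hb : 0 < b) (hR : 0 < R) {lam ε s : ℝ} (hlam : 0 < lam)
    (hε : 0 < ε) (hε1 : ε ≤ 1) {T : Finset ℕ} (hT1 : ∀ r ∈ T, 1 ≤ r ∧ r ≤ R)
    (hs : s = ∑ r ∈ T, 1 / (r : ℝ))
    (hc : lam * M ≤ cnt (fun a : Fin M × Fin κ0 => Q * (a.1.val * E + a.2.val)) n)
    (hp : ∑ r ∈ T, 1 / (r : ℝ) * (prs (fun a : Fin M × Fin κ0 => Q * (a.1.val * E + a.2.val))
      (b * r + 1) n / ((b * r : ℕ) : ℝ)) ≤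
        s * cnt (fun a : Fin M × Fin κ0 => Q * (a.1.val * E + a.2.val)) n / 8)
    (hlM : 2 * (4 * b * (R : ℝ) ^ 2 + b * (R + 1)) + 2 ≤ lam * M)
    (hd : 27 * b * (Real.log (1 + 2 / lam) * (4 + Real.log b) + 3) / ε ^ 2 ≤ s) :
    ∃ r ∈ T, ∃ m : ℕ, ∃ d : ℝ, (Q * E : ℕ) ≤ d ∧ d ≤ (Q * M * E : ℕ) ∧
      wp n (m + b * r) ≤ n + Q * M * E ∧
      ∀ j < b, |(wp n (m + (j + 1) * r) : ℝ) - wp n (m + j * r) - d| ≤ ε * d := by
  classical
  set Nn : ℕ := ((range (Q * M * E + 1)).filter (fun k => (n + k).Prime)).card with hNn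
  have hcN := cnt_window (M := M) (n := n) hQ hκE
  rw [← hNn] at hcN
  set h : Fin M × Fin κ0 → ℕ := fun a => Q * (a.1.val * E + a.2.val) with hh
  have hE0 : 0 < E := by omega
  have hQE : (0 : ℝ) < (Q * E : ℕ) := by exact_mod_cast Nat.mul_pos hQ hE0
  have hb0 : (0 : ℝ) < b := by exact_mod_cast hb
  have hb1 : (1 : ℝ) ≤ b := by exact_mod_cast hb
  have hs0 : 0 ≤ s := by
    rw [hs]
    exact Finset.sum_nonneg fun r _ => by positivity
  have hMr : (0 : ℝ) < M := by exact_mod_cast hM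
  have hNlow : 2 * (4 * b * (R : ℝ) ^ 2 + b * (R + 1)) + 2 ≤ Nn := by linarith
  have hNlow' : 2 * (4 * b * R ^ 2 + b * (R + 1)) + 2 ≤ Nn := by exact_mod_cast hNlow
  obtain ⟨N', hN'⟩ : ∃ N' : ℕ, N' + b * (R + 1) + 1 = Nn := ⟨Nn - b * (R + 1) - 1, by omega⟩
  have hN'2 : Nn ≤ 2 * N' := by omega
  have hRN' : 4 * b * R ^ 2 ≤ N' := by omega
  have hN'2r : (Nn : ℝ) ≤ 2 * N' := by exact_mod_cast hN'2
  have hbr : ∀ r ∈ T, b * r ≤ b * (R + 1) := by
    intro r hr
    exact Nat.mul_le_mul_left _ (by have := (hT1 r hr).2; omega)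
  have hwp : Monotone (fun i => (wp n i : ℝ)) := fun i j hij => by
    change (wp n i : ℝ) ≤ (wp n j : ℝ)
    exact_mod_cast wp_le hij
  have hlph : lph ((Q * E : ℕ) : ℝ) (2 / lam * (Q * E : ℕ)) = Real.log (1 + 2 / lam) := by
    unfold lph
    congr 2
    field_simp
  obtain ⟨r, hr, m, hm, h1, h3⟩ := detT (p := fun i => (wp n i : ℝ)) hwp
    (K := ((Q * E : ℕ) : ℝ)) (a := 2 / lam * (Q * E : ℕ)) (ε := ε) (s := s)
    hQE (by positivity) hε hε1 hb hR hRN' (by
      have e1 := wp_window (n := n) (m := N' + b * (R + 1)) (H := Q * M * E) (by omega)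
      have e2 := wp_ge n 0
      have e3 : (wp n (N' + b * (R + 1)) : ℝ) ≤ (n : ℝ) + (Q * M * E : ℕ) := by exact_mod_cast e1
      have e4 : (n : ℝ) ≤ wp n 0 := by exact_mod_cast e2
      have e5 : (M : ℝ) ≤ N' * (2 / lam) := by
        have e6 : lam * M ≤ 2 * N' := by linarith
        calc (M : ℝ) = lam * M / lam := by field_simp
          _ ≤ 2 * N' / lam := div_le_div_of_nonneg_right e6 hlam.le
          _ = _ := by ring
      have e6 : ((Q * M * E : ℕ) : ℝ) = M * (Q * E : ℕ) := by push_cast; ring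
      have e7 : (M : ℝ) * (Q * E : ℕ) ≤ N' * (2 / lam) * (Q * E : ℕ) :=
        mul_le_mul_of_nonneg_right e5 hQE.le
      have e8 : (N' : ℝ) * (2 / lam) * (Q * E : ℕ) = N' * (2 / lam * (Q * E : ℕ)) := by ring
      linarith) hT1 hs (by
      have e1 : ∀ r ∈ T, 1 / (r : ℝ) * (((range N').filter (fun m =>
          gm (fun i => (wp n i : ℝ)) (b * r) m < (Q * E : ℕ))).card : ℝ) ≤
          1 / (r : ℝ) * (prs h (b * r + 1) n / ((b * r : ℕ) : ℝ)) := by
        intro r hr
        apply mul_le_mul_of_nonneg_left _ (by positivity)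
        have e2 : 0 < b * r := Nat.mul_pos hb (hT1 r hr).1
        have e3 := hbr r hr
        rw [le_div_iff₀ (by exact_mod_cast e2)]
        exact small_pairs hM hκ hκE ho e2 (by omega)
      refine (Finset.sum_le_sum e1).trans (hp.trans ?_)
      have e2 : s * cnt h n ≤ s * Nn := mul_le_mul_of_nonneg_left hcN hs0
      have e3 : s * Nn ≤ s * (2 * N') := mul_le_mul_of_nonneg_left hN'2r hs0
      linarith) (by
      rw [hlph]
      exact hd)
  have hr1 := (hT1 r hr).1
  have hr1r : (1 : ℝ) ≤ r := by exact_mod_cast hr1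
  have hr0r : (0 : ℝ) < r := by linarith
  set g : ℝ := gm (fun i => (wp n i : ℝ)) (b * r) m with hg
  have hlast : wp n (m + b * r) ≤ n + Q * M * E := by
    have e3 := hbr r hr
    exact wp_window (by omega)
  refine ⟨r, hr, m, r * g, ?_, ?_, hlast, ?_⟩
  · nlinarith
  · have e1 : g * (b * r) = (wp n (m + b * r) : ℝ) - wp n m := by
      rw [hg]
      unfold gm
      push_cast
      field_simp
    have e2 : (wp n (m + b * r) : ℝ) ≤ (n : ℝ) + (Q * M * E : ℕ) := by exact_mod_cast hlast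
    have e3 : (n : ℝ) ≤ wp n m := by exact_mod_cast wp_ge n m
    have e4 : 0 ≤ g := gm_nonneg hwp _ _
    have e5 : r * g ≤ g * (b * r) := by
      have : 0 ≤ r * g := by positivity
      nlinarith
    linarith
  · intro j hj
    have h4 := h3 j hj
    have h5 : (wp n (m + (j + 1) * r) : ℝ) - wp n (m + j * r) - r * g =
        (gm (fun i => (wp n i : ℝ)) r (m + j * r) - g) * r := by
      unfold gm
      have e1 : m + j * r + r = m + (j + 1) * r := by ring
      rw [e1]
      field_simp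
    rw [h5, abs_mul, abs_of_pos hr0r]
    calc _ ≤ ε * g * r := mul_le_mul_of_nonneg_right h4 hr0r.le
      _ = _ := by ring

end Pool.Agent.Helper99.LR2
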